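import Pool.Agent.H83.Sym.Fam

/-! Centrally symmetric bodies: all families but one are pierced by three points. -/

set_option autoImplicit false

open Set
open scoped Pointwise

namespace Pool.Agent.H83.Sym

variable {n : ℕ} {K : Set E} {F : Fin n → Set E}

/-- The conclusion for the index `m`. -/
def Good (K : Set E) (F : Fin n → Set E) (m : Fin n) : Prop :=
  ∃ P : Finset E, P.card ≤ 3 ∧ ∀ i, i ≠ m → ∀ x ∈ F i, ∃ p ∈ P, x - p ∈ K

lemma Dat.apply (h : Dat K F) {m : Fin n} {μ : ℝ} {a b w : E} (ha : a ∈ K) (hb : b ∈ K)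
    (hw : w ∈ K) (hμ : 0 ≤ μ) (hμ1 : μ ≤ 1) (hw' : (1 + μ) • w = b - a) {f g u : E →L[ℝ] ℝ}
    (hf : ∀ x ∈ K, f x ≤ 1) (hg : ∀ x ∈ K, g x ≤ 1) (hu : ∀ x ∈ K, u x ≤ 1) (hfa : f a = 1) (hgb : g b = 1)
    (huw : u w = 1) (hfg : 0 ≤ f b + g a) (mf : Fine K F f m) (mg : Fine K F g m) (mu : Fine K F u m) :
    Good K F m := by
  have hN : ∀ (v : E →L[ℝ] ℝ) (z : E), z ∈ K → (∀ x ∈ K, v x ≤ 1) → v z = 1 → N K v = 1 := by
    intro v z hz h1 h2
    rw [← h2]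
    exact h.N_eq hz fun y hy => by rw [h2]; exact h1 y hy
  have key : ∀ v : E →L[ℝ] ℝ, N K v = 1 → Fine K F v m → ∀ x ∈ ⋃ i ∈ {i : Fin n | i ≠ m}, F i,
      ∀ y ∈ ⋃ i ∈ {i : Fin n | i ≠ m}, F i, v (x - y) ≤ 2 := by
    intro v hv hm x hx y hy
    obtain ⟨i, hi, hx⟩ := mem_iUnion₂.1 hx
    obtain ⟨j, hj, hy⟩ := mem_iUnion₂.1 hy
    have := hm i hi j hj x hx y hy
    rwa [hv, mul_one] at this
  obtain ⟨P, hP, hP'⟩ := core h.cvx h.sym ha hb hw hμ hμ1 hw' hf hg hu hfa hgb huw hfg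
    (key f (hN f a ha hf hfa) mf) (key g (hN g b hb hg hgb) mg) (key u (hN u w hw hu huw) mu)
  exact ⟨P, hP, fun i hi x hx => hP' x (mem_biUnion (show i ∈ {i : Fin n | i ≠ m} from hi) hx)⟩

/-- One owner. -/
lemma Dat.one (h : Dat K F) {m : Fin n} {a r : E} (ha : a ∈ K) (hr : r ∈ K) (har : a + r ∈ K)
    {f u₂ u₃ : E →L[ℝ] ℝ} (hf : ∀ x ∈ K, f x ≤ 1) (hfa : f a = 1) (h2 : ∀ x ∈ K, u₂ x ≤ 1) (h2' : u₂ r = 1)
    (h3 : ∀ x ∈ K, u₃ x ≤ 1) (h3' : u₃ (a + r) = 1) (mf : Fine K F f m) (m2 : Fine K F u₂ m) (m3 : Fine K F u₃ m) :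
    Good K F m := by
  refine h.apply (μ := 0) ha har hr le_rfl zero_le_one ?_ hf h3 h2 hfa h3' h2' ?_ mf m3 m2
  · rw [add_zero, one_smul]
    abel
  · rw [map_add, hfa]
    have e1 : u₃ a = 1 - u₃ r := by
      rw [map_add] at h3'
      linarith
    have e2 := h3 r hr
    have e3 := hf (-r) (h.sym r hr)
    rw [map_neg] at e3
    linarith

theorem Dat.main (h : Dat K F) (m₀ : Fin n) : ∃ m, Good K F m := by
  -- a functional which is fine for a good index, or without owner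
  have hne : ∃ f : E →L[ℝ] ℝ, f ≠ 0 ∧ ((∃ m, ∀ u, Fine K F u m) ∨ ∀ i, ¬ Own K F f i) := by
    by_cases hall : ∃ m, ∀ u, Fine K F u m
    · refine ⟨EuclideanSpace.proj (0 : Fin 2), ?_, Or.inl hall⟩
      intro h0
      have h1 : (EuclideanSpace.proj (0 : Fin 2) : E →L[ℝ] ℝ) (!₂[(1 : ℝ), 0]) = 0 := by
        rw [h0]
        rfl
      simp at h1
    · push Not at hall
      have own : ∀ m, ∃ u i, i ≠ m ∧ Own K F u i := by
        intro m
        obtain ⟨u, hu⟩ := hall m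
        by_contra hc
        push Not at hc
        apply hu
        intro i hi j hj x hx y hy
        by_cases hij : i = j
        · subst hij
          by_contra hcc
          push Not at hcc
          exact hc u i hi ⟨x, hx, y, hy, hcc⟩
        · exact h.cross u hij hx hy
      obtain ⟨u, i, -, hu⟩ := own m₀
      obtain ⟨v, j, hji, hv⟩ := own i
      obtain ⟨θ, -, -, h1, h2⟩ := h.path (Ne.symm hji) hu hv
      exact ⟨_, h2, Or.inr h1⟩
  obtain ⟨f', hf0, hf'⟩ := hne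
  have hNf := h.Npos hf0
  obtain ⟨a, ha, haN⟩ := h.exN f'
  obtain ⟨f, hff⟩ : ∃ f : E →L[ℝ] ℝ, f = (N K f')⁻¹ • f' := ⟨_, rfl⟩
  have hf : ∀ x ∈ K, f x ≤ 1 := by
    intro x hx
    rw [hff]
    show (N K f')⁻¹ * f' x ≤ 1
    rw [inv_mul_le_one₀ hNf]
    exact h.leN f' hx
  have hfa : f a = 1 := by
    rw [hff]
    show (N K f')⁻¹ * f' a = 1
    rw [haN, inv_mul_cancel₀ hNf.ne']
  have ha0 : a ≠ 0 := by
    rintro rfl
    rw [map_zero] at hfa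
    exact zero_ne_one hfa
  obtain ⟨r, hr, har, u₂, u₃, h2, h2', h3, h3'⟩ := h.triple ha ha0
  rcases hf' with ⟨m, hm⟩ | hun
  · exact ⟨m, h.one ha hr har hf hfa h2 h2' h3 h3' (hm _) (hm _) (hm _)⟩
  have hun' : ∀ i, ¬ Own K F f i := by
    intro i hi
    rw [hff] at hi
    exact hun i ((h.own_smul (inv_pos.2 hNf)).1 hi)
  by_cases hcom : ∃ m, Fine K F u₂ m ∧ Fine K F u₃ m
  · obtain ⟨m, m2, m3⟩ := hcom
    exact ⟨m, h.one ha hr har hf hfa h2 h2' h3 h3' (h.fine_un hun' m) m2 m3⟩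
  push Not at hcom
  -- both directions have different owners
  have ho2 : ∃ j, Own K F u₂ j := by
    by_contra hc
    push Not at hc
    obtain ⟨m, hm⟩ := h.ex_fine m₀ u₃
    exact hcom m (h.fine_un hc m) hm
  have ho3 : ∃ j, Own K F u₃ j := by
    by_contra hc
    push Not at hc
    obtain ⟨m, hm⟩ := h.ex_fine m₀ u₂
    exact hcom m hm (h.fine_un hc m)
  obtain ⟨j, hj⟩ := ho2
  obtain ⟨k, hk⟩ := ho3
  have hkj : k ≠ j := by
    rintro rfl
    exact hcom k (h.fine_own hj) (h.fine_own hk)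
  obtain ⟨θ, ht0, ht1, hunv, hv0⟩ := h.path hkj hk hj
  obtain ⟨v, hv⟩ : ∃ v : E →L[ℝ] ℝ, v = (1 - θ) • u₃ + θ • u₂ := ⟨_, rfl⟩
  rw [← hv] at hunv hv0
  have hvx : ∀ z, v z = (1 - θ) * u₃ z + θ * u₂ z := by
    intro z
    rw [hv]
    rfl
  have hNv := h.Npos hv0
  obtain ⟨b, hb, hbN⟩ := h.exN v
  obtain ⟨g, hgg⟩ : ∃ g : E →L[ℝ] ℝ, g = (N K v)⁻¹ • v := ⟨_, rfl⟩
  have hg : ∀ x ∈ K, g x ≤ 1 := by
    intro x hx
    rw [hgg]
    show (N K v)⁻¹ * v x ≤ 1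
    rw [inv_mul_le_one₀ hNv]
    exact h.leN v hx
  have hgb : g b = 1 := by
    rw [hgg]
    show (N K v)⁻¹ * v b = 1
    rw [hbN, inv_mul_cancel₀ hNv.ne']
  have hung : ∀ i, ¬ Own K F g i := by
    intro i hi
    rw [hgg] at hi
    exact hunv i ((h.own_smul (inv_pos.2 hNv)).1 hi)
  have e2 : u₂ (a + r) = u₂ a + 1 := by rw [map_add, h2']
  have e3 : u₃ r = 1 - u₃ a := by
    rw [map_add] at h3'
    linarith
  have c2 : 1 ≤ u₂ (b - a) := by
    have h4 := h.leN v har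
    rw [← hbN, hvx, hvx, h3', e2] at h4
    have h5 := mul_le_mul_of_nonneg_left (h3 b hb) (by linarith : 0 ≤ 1 - θ)
    have h6 : θ * (u₂ a + 1) ≤ θ * u₂ b := by linarith
    have h7 := le_of_mul_le_mul_left h6 ht0
    rw [map_sub]
    linarith
  have c3 : 1 ≤ u₃ (b + a) := by
    have h4 := h.leN v hr
    rw [← hbN, hvx, hvx, h2', e3] at h4
    have h5 := mul_le_mul_of_nonneg_left (h2 b hb) ht0.le
    have h6 : (1 - θ) * (1 - u₃ a) ≤ (1 - θ) * u₃ b := by linarith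
    have h7 := le_of_mul_le_mul_left h6 (by linarith)
    rw [map_add]
    linarith
  rcases le_total 0 (f b + g a) with hs | hs
  · have hd : (1 / 2 : ℝ) • (b - a) ∈ K := by
      have := h.cvx hb (h.sym a ha) (by norm_num : (0 : ℝ) ≤ 1 / 2) (by norm_num : (0 : ℝ) ≤ 1 / 2) (by norm_num)
      have e : (1 / 2 : ℝ) • b + (1 / 2 : ℝ) • (-a) = (1 / 2 : ℝ) • (b - a) := by module
      rwa [e] at this
    obtain ⟨μ, hμ, hμ1, w, hw, hw', u, hu, huw⟩ := h.ray hd h2 c2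
    obtain ⟨m, hm⟩ := h.ex_fine m₀ u
    exact ⟨m, h.apply ha hb hw hμ hμ1 hw' hf hg hu hfa hgb huw hs (h.fine_un hun' m) (h.fine_un hung m) hm⟩
  · have hd : (1 / 2 : ℝ) • (-b - a) ∈ K := by
      have := h.cvx (h.sym b hb) (h.sym a ha) (by norm_num : (0 : ℝ) ≤ 1 / 2) (by norm_num : (0 : ℝ) ≤ 1 / 2)
        (by norm_num)
      have e : (1 / 2 : ℝ) • (-b) + (1 / 2 : ℝ) • (-a) = (1 / 2 : ℝ) • (-b - a) := by module
      rwa [e] at this
    have h3n : ∀ x ∈ K, (-u₃) x ≤ 1 := by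
      intro x hx
      have := h3 (-x) (h.sym x hx)
      rw [map_neg] at this
      exact this
    have hgn : ∀ x ∈ K, (-g) x ≤ 1 := by
      intro x hx
      have := hg (-x) (h.sym x hx)
      rw [map_neg] at this
      exact this
    have c3' : 1 ≤ (-u₃) (-b - a) := by
      have e : (-u₃) (-b - a) = u₃ (b + a) := by
        show -(u₃ (-b - a)) = u₃ (b + a)
        rw [← map_neg]
        congr 1
        abel
      rw [e]
      exact c3
    obtain ⟨μ, hμ, hμ1, w, hw, hw', u, hu, huw⟩ := h.ray hd h3n c3'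
    obtain ⟨m, hm⟩ := h.ex_fine m₀ u
    have hungn : ∀ i, ¬ Own K F (-g) i := by
      intro i hi
      have := h.own_neg hi
      rw [neg_neg] at this
      exact hung i this
    refine ⟨m, h.apply ha (h.sym b hb) hw hμ hμ1 hw' hf hgn hu hfa ?_ huw ?_ (h.fine_un hun' m)
      (h.fine_un hungn m) hm⟩
    · show -(g (-b)) = 1
      rw [map_neg, neg_neg, hgb]
    · have e : f (-b) + (-g) a = -(f b + g a) := by
        show f (-b) + -(g a) = _
        rw [map_neg]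
        ring
      rw [e]
      linarith

lemma exists_mid' {S : Set ℝ} {c : ℝ} (hS : S.Nonempty) (h : ∀ s ∈ S, ∀ t ∈ S, s - t ≤ 2 * c) :
    ∃ d, ∀ s ∈ S, d - c ≤ s ∧ s ≤ d + c := by
  obtain ⟨s₀, hs₀⟩ := hS
  have hb : BddAbove S := ⟨s₀ + 2 * c, fun s hs => by linarith [h s hs s₀ hs₀]⟩
  refine ⟨sSup S - c, fun s hs => ⟨?_, ?_⟩⟩
  · have : sSup S ≤ s + 2 * c := csSup_le ⟨s₀, hs₀⟩ fun t ht => by linarith [h t ht s hs]
    linarith
  · have := le_csSup hb hs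
    linarith

/-- Bodies without interior. -/
lemma flat (hn : 2 ≤ n) (hc : Convex ℝ K) (hs : ∀ x ∈ K, -x ∈ K)
    (hF : ∀ i, (F i).Nonempty) (hint : ∀ i j : Fin n, i ≠ j → ∀ x ∈ F i, ∀ y ∈ F j, (1 / 2 : ℝ) • (x - y) ∈ K)
    (hK : IsCompact K) (hd : ∀ x ∈ K, ∀ y ∈ K, det2 x y = 0) : ∃ m, Good K F m := by
  classical
  have hother : ∀ i : Fin n, ∃ j, j ≠ i := by
    intro i
    by_cases hi : i = ⟨0, by omega⟩
    · exact ⟨⟨1, by omega⟩, by rw [hi]; simp⟩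
    · exact ⟨⟨0, by omega⟩, Ne.symm hi⟩
  obtain ⟨i₀⟩ : Nonempty (Fin n) := ⟨⟨0, by omega⟩⟩
  have h0 : (0 : E) ∈ K := by
    obtain ⟨j, hj⟩ := hother i₀
    obtain ⟨x, hx⟩ := hF i₀
    obtain ⟨y, hy⟩ := hF j
    have h1 := hint i₀ j (Ne.symm hj) x hx y hy
    have h2 := hc h1 (hs _ h1) (by norm_num : (0 : ℝ) ≤ 1 / 2) (by norm_num : (0 : ℝ) ≤ 1 / 2) (by norm_num)
    simpa using h2
  by_cases hz : ∀ v ∈ K, v = 0
  · obtain ⟨x₀, hx₀⟩ := hF i₀
    refine ⟨i₀, {x₀}, by simp, fun i hi x hx => ⟨x₀, by simp, ?_⟩⟩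
    have h1 := hint i i₀ hi x hx x₀ hx₀
    have h2 := hz _ h1
    rcases smul_eq_zero.1 h2 with h3 | h3
    · norm_num at h3
    · rw [h3]
      exact h0
  push Not at hz
  obtain ⟨v, hv, hv0⟩ := hz
  obtain ⟨u, hu⟩ : ∃ u : E →L[ℝ] ℝ, u v = 1 := by
    refine ⟨(‖v‖ ^ 2)⁻¹ • innerSL ℝ v, ?_⟩
    show (‖v‖ ^ 2)⁻¹ * inner ℝ v v = 1
    rw [real_inner_self_eq_norm_sq, inv_mul_cancel₀]
    have := norm_pos_iff.2 hv0
    positivity
  have hline : ∀ z ∈ K, z = u z • v := by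
    intro z hz
    obtain ⟨t, ht⟩ := par_of_det hv0 (hd v hv z hz)
    rw [ht, map_smul, hu, smul_eq_mul, mul_one]
  obtain ⟨k₀, hk₀, hmax⟩ := hK.exists_isMaxOn ⟨0, h0⟩ u.continuous.continuousOn
  obtain ⟨c, hcc⟩ : ∃ c, c = u k₀ := ⟨_, rfl⟩
  have hmax' : ∀ z ∈ K, u z ≤ c := fun z hz => by
    rw [hcc]
    exact hmax hz
  have hc1 : 1 ≤ c := by
    rw [← hu]
    exact hmax' v hv
  have hcK : c • v ∈ K := by
    rw [hcc, ← hline k₀ hk₀]
    exact hk₀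
  have hseg : ∀ t : ℝ, -c ≤ t → t ≤ c → t • v ∈ K := by
    intro t h1 h2
    have h3 := hc hcK (hs _ hcK) (a := (t + c) / (2 * c)) (b := (c - t) / (2 * c))
      (div_nonneg (by linarith) (by linarith)) (div_nonneg (by linarith) (by linarith)) (by
        field_simp
        ring)
    have e : ((t + c) / (2 * c)) • (c • v) + ((c - t) / (2 * c)) • (-(c • v)) = t • v := by
      rw [smul_neg, ← sub_eq_add_neg, smul_smul, smul_smul, ← sub_smul]
      congr 1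
      field_simp
      ring
    rwa [e] at h3
  have hcross : ∀ i j : Fin n, i ≠ j → ∀ x ∈ F i, ∀ y ∈ F j, u (x - y) ≤ 2 * c ∧ x - y = u (x - y) • v := by
    intro i j hij x hx y hy
    have h1 := hint i j hij x hx y hy
    have h2 := hmax' _ h1
    have h3 := hline _ h1
    rw [map_smul, smul_eq_mul] at h2 h3
    refine ⟨by linarith, ?_⟩
    have h4 : (2 : ℝ) • ((1 / 2 : ℝ) • (x - y)) = (2 : ℝ) • ((1 / 2 * u (x - y)) • v) := by rw [← h3]
    rw [smul_smul, smul_smul, show (2 : ℝ) * (1 / 2) = 1 by norm_num, one_smul] at h4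
    have h5 : (2 : ℝ) * (1 / 2 * u (x - y)) = u (x - y) := by ring
    rw [h5] at h4
    exact h4
  have hall : ∀ i j : Fin n, ∀ x ∈ F i, ∀ y ∈ F j, x - y = u (x - y) • v := by
    intro i j x hx y hy
    by_cases hij : i = j
    · subst hij
      obtain ⟨k, hk⟩ := hother i
      obtain ⟨z, hz⟩ := hF k
      have h1 := (hcross i k (Ne.symm hk) x hx z hz).2
      have h2 := (hcross i k (Ne.symm hk) y hy z hz).2
      have e : x - y = (x - z) - (y - z) := by abel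
      rw [e, map_sub, sub_smul, ← h1, ← h2]
    · exact (hcross i j hij x hx y hy).2
  have hm : ∃ m : Fin n, ∀ i, i ≠ m → ∀ j, j ≠ m → ∀ x ∈ F i, ∀ y ∈ F j, u (x - y) ≤ 2 * c := by
    by_contra hcon
    push Not at hcon
    have own : ∀ m : Fin n, ∃ i, i ≠ m ∧ ∃ x ∈ F i, ∃ y ∈ F i, 2 * c < u (x - y) := by
      intro m
      obtain ⟨i, hi, j, hj, x, hx, y, hy, hxy⟩ := hcon m
      by_cases hij : i = j
      · subst hij
        exact ⟨i, hi, x, hx, y, hy, hxy⟩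
      · exact absurd (hcross i j hij x hx y hy).1 (not_le.2 hxy)
    obtain ⟨i, -, x, hx, y, hy, hxy⟩ := own i₀
    obtain ⟨j, hji, z, hz, t, ht, hzt⟩ := own i
    have h1 := (hcross i j (Ne.symm hji) x hx t ht).1
    have h2 := (hcross j i hji z hz y hy).1
    rw [map_sub] at hxy hzt h1 h2
    linarith
  obtain ⟨m, hm⟩ := hm
  obtain ⟨k, hk⟩ := hother m
  obtain ⟨x₀, hx₀⟩ := hF k
  obtain ⟨d, hd'⟩ := exists_mid' (S := u '' (⋃ i ∈ {i : Fin n | i ≠ m}, F i)) (c := c)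
    ⟨u x₀, x₀, mem_biUnion (show k ∈ {i : Fin n | i ≠ m} from hk) hx₀, rfl⟩ (by
      rintro _ ⟨x, hx, rfl⟩ _ ⟨y, hy, rfl⟩
      obtain ⟨i, hi, hx⟩ := mem_iUnion₂.1 hx
      obtain ⟨j, hj, hy⟩ := mem_iUnion₂.1 hy
      rw [← map_sub]
      exact hm i hi j hj x hx y hy)
  refine ⟨m, {x₀ + (d - u x₀) • v}, by simp, fun i hi x hx => ⟨x₀ + (d - u x₀) • v, by simp, ?_⟩⟩
  obtain ⟨h1, h2⟩ := hd' (u x) ⟨x, mem_biUnion (show i ∈ {i : Fin n | i ≠ m} from hi) hx, rfl⟩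
  have e : x - (x₀ + (d - u x₀) • v) = (u x - d) • v := by
    have h3 := hall i k x hx x₀ hx₀
    have h4 : x - (x₀ + (d - u x₀) • v) = (x - x₀) - (d - u x₀) • v := by abel
    rw [h4, h3, map_sub, ← sub_smul]
    congr 1
    ring
  rw [e]
  exact hseg _ (by linarith) (by linarith)

lemma interior_of_det (hc : Convex ℝ K) (hs : ∀ x ∈ K, -x ∈ K) {x y : E} (hx : x ∈ K) (hy : y ∈ K)
    (hxy : det2 x y ≠ 0) : (0 : E) ∈ interior K := by
  have h0 : (0 : E) ∈ K := by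
    have h2 := hc hx (hs _ hx) (by norm_num : (0 : ℝ) ≤ 1 / 2) (by norm_num : (0 : ℝ) ≤ 1 / 2) (by norm_num)
    simpa using h2
  rw [mem_interior]
  refine ⟨{z : E | |det2 z y / det2 x y| + |det2 x z / det2 x y| < 1}, ?_, ?_, ?_⟩
  · intro z hz
    have hz' : |det2 z y / det2 x y| + |det2 x z / det2 x y| < 1 := hz
    rw [rep_of_det hxy z]
    have key : ∀ (t : ℝ) (w : E), w ∈ K → ∃ w' ∈ K, t • w = |t| • w' := by
      intro t w hw
      rcases le_total 0 t with ht | ht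
      · exact ⟨w, hw, by rw [abs_of_nonneg ht]⟩
      · exact ⟨-w, hs w hw, by rw [abs_of_nonpos ht, smul_neg, neg_smul, neg_neg]⟩
    obtain ⟨x', hx', ex⟩ := key (det2 z y / det2 x y) x hx
    obtain ⟨y', hy', ey⟩ := key (det2 x z / det2 x y) y hy
    rw [ex, ey]
    exact two_mem hc h0 hx' hy' (abs_nonneg _) (abs_nonneg _) hz'.le
  · refine isOpen_lt ?_ continuous_const
    unfold det2
    fun_prop
  · show |det2 0 y / det2 x y| + |det2 x 0 / det2 x y| < 1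
    simp [det2]

/-- The centred form. -/
theorem centred (hn : 2 ≤ n) (hK : IsCompact K) (hc : Convex ℝ K) (hs : ∀ x ∈ K, -x ∈ K)
    (hF : ∀ i, (F i).Nonempty) (hint : ∀ i j : Fin n, i ≠ j → ∀ x ∈ F i, ∀ y ∈ F j, (1 / 2 : ℝ) • (x - y) ∈ K) :
    ∃ m, Good K F m := by
  by_cases hd : ∀ x ∈ K, ∀ y ∈ K, det2 x y = 0
  · exact flat hn hc hs hF hint hK hd
  · push Not at hd
    obtain ⟨x, hx, y, hy, hxy⟩ := hd
    exact Dat.main ⟨hK, hc, hs, interior_of_det hc hs hx hy hxy, hint⟩ ⟨0, by omega⟩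

/-- Centrally symmetric bodies. -/
theorem symmetric {n : ℕ} (hn : 2 ≤ n) (K : Set E) (hK : IsCompact K) (hc : Convex ℝ K)
    (hs : ∃ c : E, ∀ x ∈ K, c - x ∈ K) (F : Fin n → Set E) (hF : ∀ i, (F i).Nonempty)
    (hint : ∀ i j : Fin n, i ≠ j → ∀ a ∈ F i, ∀ b ∈ F j, ((a +ᵥ K) ∩ (b +ᵥ K)).Nonempty) :
    ∃ m : Fin n, ∃ P : Finset E, P.card ≤ 3 ∧ ∀ i : Fin n, i ≠ m → ∀ a ∈ F i, ∃ p ∈ P, p ∈ a +ᵥ K := by
  classical
  obtain ⟨c, hs⟩ := hs
  obtain ⟨h, hh⟩ : ∃ h : E, h = (1 / 2 : ℝ) • c := ⟨_, rfl⟩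
  have hhh : h + h = c := by
    rw [hh, ← add_smul]
    norm_num
  have hmemv : ∀ (a x : E), x ∈ a +ᵥ K ↔ x - a ∈ K := by
    intro a x
    rw [Set.mem_vadd_set_iff_neg_vadd_mem, vadd_eq_add, neg_add_eq_sub]
  have hmem0 : ∀ x : E, x ∈ (-h) +ᵥ K ↔ x + h ∈ K := by
    intro x
    rw [hmemv, sub_neg_eq_add]
  have hs0 : ∀ x ∈ (-h) +ᵥ K, -x ∈ (-h) +ᵥ K := by
    intro x hx
    rw [hmem0] at hx ⊢
    have := hs _ hx
    rwa [show c - (x + h) = -x + h by rw [← hhh]; abel] at this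
  have hc0 : Convex ℝ ((-h) +ᵥ K) := hc.vadd (-h)
  obtain ⟨m, P, hP, hP'⟩ := centred (K := (-h) +ᵥ K) (F := F) hn (hK.vadd (-h)) hc0 hs0 hF (by
    intro i j hij a ha b hb
    obtain ⟨x, hx1, hx2⟩ := hint i j hij a ha b hb
    rw [hmemv] at hx1 hx2
    have h1 : x - b - h ∈ (-h) +ᵥ K := by
      rw [hmem0]
      simpa using hx2
    have h2 : x - a - h ∈ (-h) +ᵥ K := by
      rw [hmem0]
      simpa using hx1
    have h3 := hc0 h1 (hs0 _ h2) (by norm_num : (0 : ℝ) ≤ 1 / 2) (by norm_num : (0 : ℝ) ≤ 1 / 2) (by norm_num)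
    have e : (1 / 2 : ℝ) • (x - b - h) + (1 / 2 : ℝ) • (-(x - a - h)) = (1 / 2 : ℝ) • (a - b) := by module
    rwa [e] at h3)
  refine ⟨m, P.image (· + h), Finset.card_image_le.trans hP, fun i hi a ha => ?_⟩
  obtain ⟨p, hp, hpa⟩ := hP' i hi a ha
  refine ⟨p + h, Finset.mem_image_of_mem _ hp, ?_⟩
  have h1 := hs0 _ hpa
  rw [hmem0] at h1
  rw [hmemv]
  rwa [show -(a - p) + h = p + h - a by abel] at h1

end Pool.Agent.H83.Sym
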