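import Pool.Agent.H83.Sym.Ineq

/-! Planar covering by three translates of a centrally symmetric convex set. -/

set_option autoImplicit false

namespace Pool.Agent.H83.Sym

/-- The plane. -/
abbrev E := EuclideanSpace ℝ (Fin 2)

variable {μ m n k l : ℝ}

lemma Reg.neg {C x y : ℝ} (h : Reg m n k l C x y) : Reg m n k l (-C) (-x) (-y) :=
  ⟨by linarith [h.f1], by linarith [h.f0], by linarith [h.g1], by linarith [h.g0], by linarith [h.h1], by linarith [h.h0]⟩

lemma Hex.neg {x y : ℝ} (h : Hex μ x y) : Hex μ (-x) (-y) :=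
  ⟨by linarith [h.s1], by linarith [h.s0], by linarith [h.p1], by linarith [h.p0], by linarith [h.q1], by linarith [h.q0]⟩

lemma core_pos (h : Par μ m n k l) {C : ℝ} (hC : 0 ≤ C) {U : Set (ℝ × ℝ)} (hU : ∀ u ∈ U, Reg m n k l C u.1 u.2) :
    ∃ c₁ c₂ c₃ : ℝ × ℝ, ∀ u ∈ U, Hex μ (u.1 - c₁.1) (u.2 - c₁.2) ∨ Hex μ (u.1 - c₂.1) (u.2 - c₂.2) ∨
      Hex μ (u.1 - c₃.1) (u.2 - c₃.2) := by
  obtain ⟨t, ht, htC, hO⟩ := exists_shift h hC hU
  have hpos : 0 < 1 + μ := by linarith [h.u0]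
  refine ⟨(1 / (1 + μ) - t / (1 + μ), μ * (1 / (1 + μ)) + t / (1 + μ)), (-1 - t / (1 + μ), 1 + t / (1 + μ)),
    (-(μ * (1 / (1 + μ))) - t / (1 + μ), -(1 / (1 + μ)) + t / (1 + μ)), fun u hu => ?_⟩
  exact cover h hC ht htC (by field_simp) (by field_simp) (hU u hu) (hO u hu)

lemma core_real (h : Par μ m n k l) (C : ℝ) {U : Set (ℝ × ℝ)} (hU : ∀ u ∈ U, Reg m n k l C u.1 u.2) :
    ∃ c₁ c₂ c₃ : ℝ × ℝ, ∀ u ∈ U, Hex μ (u.1 - c₁.1) (u.2 - c₁.2) ∨ Hex μ (u.1 - c₂.1) (u.2 - c₂.2) ∨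
      Hex μ (u.1 - c₃.1) (u.2 - c₃.2) := by
  rcases le_total 0 C with hC | hC
  · exact core_pos h hC hU
  · obtain ⟨c₁, c₂, c₃, hc⟩ := core_pos h (C := -C) (by linarith) (U := {u | -u ∈ U}) (by
      intro u hu
      have := (hU _ hu).neg
      simpa using this)
    refine ⟨-c₁, -c₂, -c₃, fun u hu => ?_⟩
    have h1 := hc (-u) (by simpa using hu)
    have e : ∀ c : ℝ × ℝ, Hex μ ((-u).1 - c.1) ((-u).2 - c.2) → Hex μ (u.1 - (-c).1) (u.2 - (-c).2) := by
      intro c hh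
      have h2 := hh.neg
      have e1 : -((-u).1 - c.1) = u.1 - (-c).1 := by
        simp only [Prod.fst_neg]
        ring
      have e2 : -((-u).2 - c.2) = u.2 - (-c).2 := by
        simp only [Prod.snd_neg]
        ring
      rwa [e1, e2] at h2
    rcases h1 with h1 | h1 | h1
    · exact Or.inl (e _ h1)
    · exact Or.inr (Or.inl (e _ h1))
    · exact Or.inr (Or.inr (e _ h1))

lemma two_mem {K : Set E} (hc : Convex ℝ K) (h0 : (0 : E) ∈ K) {p q : E} (hp : p ∈ K) (hq : q ∈ K) {s t : ℝ}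
    (hs : 0 ≤ s) (ht : 0 ≤ t) (hst : s + t ≤ 1) : s • p + t • q ∈ K := by
  have h1 := hc.sum_mem (t := (Finset.univ : Finset (Fin 3))) (w := ![s, t, 1 - s - t]) (z := ![p, q, 0])
      (by intro i _; fin_cases i <;> simp <;> linarith)
      (by simp [Fin.sum_univ_three])
      (by intro i _; fin_cases i <;> simp <;> assumption)
  simpa [Fin.sum_univ_three] using h1

lemma hex_mem {K : Set E} (hc : Convex ℝ K) (hs : ∀ x ∈ K, -x ∈ K) {a b w : E} (ha : a ∈ K) (hb : b ∈ K)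
    (hw : w ∈ K) (hμ : 0 ≤ μ) (hw' : (1 + μ) • w = b - a) {x y : ℝ} (h : Hex μ x y) : x • a + y • b ∈ K := by
  have h0 : (0 : E) ∈ K := by
    have := hc ha (hs a ha) (by norm_num : (0 : ℝ) ≤ 1 / 2) (by norm_num : (0 : ℝ) ≤ 1 / 2) (by norm_num)
    simpa using this
  have key : ∀ x y : ℝ, x ≤ 0 → 0 ≤ y → y - μ * x ≤ 1 → μ * y - x ≤ 1 → x • a + y • b ∈ K := by
    intro x y hx hy h1 h2
    rcases le_total (-x) y with h3 | h3
    · have e : x • a + y • b = ((1 + μ) * (-x)) • w + (x + y) • b := by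
        rw [mul_comm, mul_smul, hw']
        module
      rw [e]
      exact two_mem hc h0 hw hb (mul_nonneg (by linarith) (by linarith)) (by linarith) (by linarith)
    · have e : x • a + y • b = ((1 + μ) * y) • w + (-(x + y)) • (-a) := by
        rw [mul_comm, mul_smul, hw']
        module
      rw [e]
      exact two_mem hc h0 hw (hs a ha) (mul_nonneg (by linarith) (by linarith)) (by linarith) (by linarith)
  rcases le_total 0 x with hx | hx
  · rcases le_total 0 y with hy | hy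
    · exact two_mem hc h0 ha hb hx hy h.s1
    · have h1 := key (-x) (-y) (by linarith) (by linarith) (by linarith [h.p0]) (by linarith [h.q0])
      have h2 := hs _ h1
      have e : -((-x) • a + (-y) • b) = x • a + y • b := by module
      rwa [e] at h2
  · rcases le_total 0 y with hy | hy
    · exact key x y hx hy h.p1 h.q1
    · have e : x • a + y • b = (-x) • (-a) + (-y) • (-b) := by module
      rw [e]
      exact two_mem hc h0 (hs a ha) (hs b hb) (by linarith) (by linarith) (by linarith [h.s0])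

lemma exists_mid {S : Set ℝ} (hS : S.Nonempty) (h : ∀ s ∈ S, ∀ t ∈ S, s - t ≤ 2) : ∃ c, ∀ s ∈ S, c - 1 ≤ s ∧ s ≤ c + 1 := by
  obtain ⟨s₀, hs₀⟩ := hS
  have hb : BddAbove S := ⟨s₀ + 2, fun s hs => by linarith [h s hs s₀ hs₀]⟩
  refine ⟨sSup S - 1, fun s hs => ⟨?_, ?_⟩⟩
  · have : sSup S ≤ s + 2 := csSup_le ⟨s₀, hs₀⟩ fun t ht => by linarith [h t ht s hs]
    linarith
  · have := le_csSup hb hs
    linarith

/-- determinant of two plane vectors -/
noncomputable def det2 (u v : E) : ℝ := u 0 * v 1 - u 1 * v 0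

lemma ext2 {u v : E} (h0 : u 0 = v 0) (h1 : u 1 = v 1) : u = v := by
  ext i
  fin_cases i
  · exact h0
  · exact h1

lemma par_of_det {a b : E} (ha : a ≠ 0) (h : det2 a b = 0) : ∃ t : ℝ, b = t • a := by
  unfold det2 at h
  by_cases h0 : a 0 = 0
  · have h1 : a 1 ≠ 0 := by
      intro h1
      exact ha (ext2 (by simpa using h0) (by simpa using h1))
    refine ⟨b 1 / a 1, ext2 ?_ ?_⟩
    · rw [h0] at h
      have : b 0 = 0 := by
        rcases mul_eq_zero.1 (show a 1 * b 0 = 0 by linarith) with h2 | h2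
        · exact absurd h2 h1
        · exact h2
      simp [h0, this]
    · simp [h1]
  · refine ⟨b 0 / a 0, ext2 ?_ ?_⟩
    · simp [h0]
    · simp only [PiLp.smul_apply, smul_eq_mul]
      field_simp
      linarith

lemma rep_of_det {a b : E} (h : det2 a b ≠ 0) (z : E) :
    z = (det2 z b / det2 a b) • a + (det2 a z / det2 a b) • b := by
  have h' := h
  unfold det2 at h'
  refine ext2 ?_ ?_
  · simp only [PiLp.add_apply, PiLp.smul_apply, smul_eq_mul]
    rw [div_mul_eq_mul_div, div_mul_eq_mul_div, ← add_div, eq_div_iff h]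
    unfold det2
    ring
  · simp only [PiLp.add_apply, PiLp.smul_apply, smul_eq_mul]
    rw [div_mul_eq_mul_div, div_mul_eq_mul_div, ← add_div, eq_div_iff h]
    unfold det2
    ring

/-- The covering lemma. -/
theorem core {K : Set E} (hc : Convex ℝ K) (hs : ∀ x ∈ K, -x ∈ K) {a b w : E} (ha : a ∈ K) (hb : b ∈ K)
    (hw : w ∈ K) (hμ : 0 ≤ μ) (hμ1 : μ ≤ 1) (hw' : (1 + μ) • w = b - a) {f g h : E →L[ℝ] ℝ}
    (hf : ∀ x ∈ K, f x ≤ 1) (hg : ∀ x ∈ K, g x ≤ 1) (hh : ∀ x ∈ K, h x ≤ 1) (hfa : f a = 1) (hgb : g b = 1)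
    (hhw : h w = 1) (hfg : 0 ≤ f b + g a) {U : Set E} (hUf : ∀ x ∈ U, ∀ y ∈ U, f (x - y) ≤ 2)
    (hUg : ∀ x ∈ U, ∀ y ∈ U, g (x - y) ≤ 2) (hUh : ∀ x ∈ U, ∀ y ∈ U, h (x - y) ≤ 2) :
    ∃ P : Finset E, P.card ≤ 3 ∧ ∀ x ∈ U, ∃ p ∈ P, x - p ∈ K := by
  classical
  rcases U.eq_empty_or_nonempty with hU0 | hU0
  · refine ⟨∅, by simp, fun x hx => ?_⟩
    rw [hU0] at hx
    exact absurd hx (Set.notMem_empty x)
  have low : ∀ u : E →L[ℝ] ℝ, (∀ x ∈ K, u x ≤ 1) → ∀ x ∈ K, -1 ≤ u x := by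
    intro u hu x hx
    have := hu (-x) (hs x hx)
    rw [map_neg] at this
    linarith
  have hfw : (1 + μ) * f w = f b - 1 := by
    have := congrArg f hw'
    rwa [map_smul, map_sub, hfa, smul_eq_mul] at this
  have hgw : (1 + μ) * g w = 1 - g a := by
    have := congrArg g hw'
    rwa [map_smul, map_sub, hgb, smul_eq_mul] at this
  have hhw' : 1 + μ = h b - h a := by
    have := congrArg h hw'
    rwa [map_smul, map_sub, hhw, smul_eq_mul, mul_one] at this
  have hpar : Par μ (f b) (g a) (h b) (-h a) := by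
    have h1 := low f hf w hw
    have h2 := hg w hw
    have h3 := hh b hb
    have h4 := low h hh a ha
    refine ⟨hμ, hμ1, by nlinarith, hf b hb, by nlinarith, hg a ha, hfg, by linarith, h3, by linarith, by linarith,
      by linarith⟩
  have ha0 : a ≠ 0 := by
    rintro rfl
    simp at hfa
  have hdet : det2 a b ≠ 0 := by
    intro hd
    obtain ⟨t, ht⟩ := par_of_det ha0 hd
    have h1 : f b = t := by rw [ht, map_smul, hfa, smul_eq_mul, mul_one]
    have h2 : t * g a = 1 := by rw [← hgb, ht, map_smul, smul_eq_mul]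
    have h3 := hf b hb
    have h4 := low f hf b hb
    have h5 := hg a ha
    have h6 := low g hg a ha
    rw [h1] at h3 h4
    have h7 : t = 1 ∨ t = -1 := by
      have h8 : (t - g a) ^ 2 ≤ 0 := by nlinarith
      have h9 : t = g a := by nlinarith [sq_nonneg (t - g a)]
      have h10 : (t - 1) * (t + 1) = 0 := by
        rw [← h9] at h2
        linarith
      rcases mul_eq_zero.1 h10 with h11 | h11
      · left; linarith
      · right; linarith
    rcases h7 with h7 | h7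
    · rw [ht, h7, one_smul, sub_self] at hw'
      have h8 : w = 0 := by
        rcases smul_eq_zero.1 hw' with h9 | h9
        · linarith
        · exact h9
      rw [h8, map_zero] at hhw
      linarith
    · rw [h1, h7] at hfg
      rw [h7] at h2
      linarith
  obtain ⟨φ, hφ⟩ : ∃ φ : E → ℝ, ∀ z, φ z = det2 z b / det2 a b := ⟨_, fun _ => rfl⟩
  obtain ⟨ψ, hψ⟩ : ∃ ψ : E → ℝ, ∀ z, ψ z = det2 a z / det2 a b := ⟨_, fun _ => rfl⟩
  have hrep : ∀ z, z = φ z • a + ψ z • b := by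
    intro z
    rw [hφ, hψ]
    exact rep_of_det hdet z
  have hfz : ∀ z, f z = φ z + f b * ψ z := by
    intro z
    conv_lhs => rw [hrep z]
    rw [map_add, map_smul, map_smul, hfa, smul_eq_mul, smul_eq_mul]
    ring
  have hgz : ∀ z, g z = ψ z + g a * φ z := by
    intro z
    conv_lhs => rw [hrep z]
    rw [map_add, map_smul, map_smul, hgb, smul_eq_mul, smul_eq_mul]
    ring
  have hhz : ∀ z, h z = h b * ψ z - (-h a) * φ z := by
    intro z
    conv_lhs => rw [hrep z]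
    rw [map_add, map_smul, map_smul, smul_eq_mul, smul_eq_mul]
    ring
  obtain ⟨cf, hcf⟩ := exists_mid (S := f '' U) (hU0.image _) (by
    rintro _ ⟨x, hx, rfl⟩ _ ⟨y, hy, rfl⟩
    rw [← map_sub]
    exact hUf x hx y hy)
  obtain ⟨cg, hcg⟩ := exists_mid (S := g '' U) (hU0.image _) (by
    rintro _ ⟨x, hx, rfl⟩ _ ⟨y, hy, rfl⟩
    rw [← map_sub]
    exact hUg x hx y hy)
  obtain ⟨ch, hch⟩ := exists_mid (S := h '' U) (hU0.image _) (by
    rintro _ ⟨x, hx, rfl⟩ _ ⟨y, hy, rfl⟩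
    rw [← map_sub]
    exact hUh x hx y hy)
  obtain ⟨z₀, hz₀⟩ : ∃ z₀ : E, ∀ u ∈ U, (-1 ≤ f (u - z₀) ∧ f (u - z₀) ≤ 1) ∧ (-1 ≤ g (u - z₀) ∧ g (u - z₀) ≤ 1) := by
    by_cases hmn : f b * g a = 1
    · obtain ⟨h1, h2⟩ := hpar.eq1 hmn
      have hfg' : ∀ z, g z = f z := by
        intro z
        rw [hfz, hgz, h1, h2]
        ring
      refine ⟨cf • a, fun u hu => ?_⟩
      have h3 := hcf (f u) ⟨u, hu, rfl⟩
      have h4 : f (u - cf • a) = f u - cf := by rw [map_sub, map_smul, hfa, smul_eq_mul, mul_one]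
      rw [hfg', h4]
      exact ⟨⟨by linarith [h3.1], by linarith [h3.2]⟩, ⟨by linarith [h3.1], by linarith [h3.2]⟩⟩
    · have hD : 1 - f b * g a ≠ 0 := fun h0 => hmn (by linarith)
      refine ⟨((cf - f b * cg) / (1 - f b * g a)) • a + ((cg - g a * cf) / (1 - f b * g a)) • b, fun u hu => ?_⟩
      have h3 := hcf (f u) ⟨u, hu, rfl⟩
      have h4 := hcg (g u) ⟨u, hu, rfl⟩
      have h5 : f (((cf - f b * cg) / (1 - f b * g a)) • a + ((cg - g a * cf) / (1 - f b * g a)) • b) = cf := by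
        rw [map_add, map_smul, map_smul, hfa, smul_eq_mul, smul_eq_mul]
        field_simp
        ring
      have h6 : g (((cf - f b * cg) / (1 - f b * g a)) • a + ((cg - g a * cf) / (1 - f b * g a)) • b) = cg := by
        rw [map_add, map_smul, map_smul, hgb, smul_eq_mul, smul_eq_mul]
        field_simp
        ring
      rw [map_sub, map_sub, h5, h6]
      exact ⟨⟨by linarith [h3.1], by linarith [h3.2]⟩, ⟨by linarith [h4.1], by linarith [h4.2]⟩⟩
  obtain ⟨c₁, c₂, c₃, hcov⟩ := core_real hpar (ch - h z₀) (U := (fun u => (φ (u - z₀), ψ (u - z₀))) '' U) (by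
    rintro _ ⟨u, hu, rfl⟩
    obtain ⟨⟨h1, h2⟩, h3, h4⟩ := hz₀ u hu
    obtain ⟨h5, h6⟩ := hch (h u) ⟨u, hu, rfl⟩
    have h7 : h (u - z₀) = h u - h z₀ := map_sub _ _ _
    rw [hfz] at h1 h2
    rw [hgz] at h3 h4
    rw [hhz] at h7
    exact ⟨h1, h2, h3, h4, by linarith, by linarith⟩)
  refine ⟨{z₀ + (c₁.1 • a + c₁.2 • b), z₀ + (c₂.1 • a + c₂.2 • b), z₀ + (c₃.1 • a + c₃.2 • b)}, Finset.card_le_three,
    fun u hu => ?_⟩
  have e : ∀ c : ℝ × ℝ, Hex μ (φ (u - z₀) - c.1) (ψ (u - z₀) - c.2) → u - (z₀ + (c.1 • a + c.2 • b)) ∈ K := by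
    intro c hH
    have h1 := hex_mem hc hs ha hb hw hμ hw' hH
    have h2 := hrep (u - z₀)
    have h3 : u - (z₀ + (c.1 • a + c.2 • b)) = (φ (u - z₀) - c.1) • a + (ψ (u - z₀) - c.2) • b := by
      have h4 : u - (z₀ + (c.1 • a + c.2 • b)) = (u - z₀) - (c.1 • a + c.2 • b) := by abel
      rw [h4]
      conv_lhs => rw [h2]
      module
    rw [h3]
    exact h1
  rcases hcov _ ⟨u, hu, rfl⟩ with h1 | h1 | h1
  · exact ⟨_, by simp, e _ h1⟩
  · exact ⟨_, by simp, e _ h1⟩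
  · exact ⟨_, by simp, e _ h1⟩

end Pool.Agent.H83.Sym
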