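import Pool.Agent.H83.Sym.Core

/-! Width functionals, owners, support lines. -/

set_option autoImplicit false

open Set

namespace Pool.Agent.H83.Sym

/-- The support function. -/
noncomputable def N (K : Set E) (u : E →L[ℝ] ℝ) : ℝ := sSup (u '' K)

/-- Direction `u` is owned by family `i`. -/
def Own {n : ℕ} (K : Set E) (F : Fin n → Set E) (u : E →L[ℝ] ℝ) (i : Fin n) : Prop :=
  ∃ x ∈ F i, ∃ y ∈ F i, 2 * N K u < u (x - y)

/-- Direction `u` is fine once the family `m` is removed. -/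
def Fine {n : ℕ} (K : Set E) (F : Fin n → Set E) (u : E →L[ℝ] ℝ) (m : Fin n) : Prop :=
  ∀ i, i ≠ m → ∀ j, j ≠ m → ∀ x ∈ F i, ∀ y ∈ F j, u (x - y) ≤ 2 * N K u

/-- A centred convex body with families. -/
structure Dat {n : ℕ} (K : Set E) (F : Fin n → Set E) : Prop where
  cpt : IsCompact K
  cvx : Convex ℝ K
  sym : ∀ x ∈ K, -x ∈ K
  int0 : (0 : E) ∈ interior K
  int : ∀ i j : Fin n, i ≠ j → ∀ x ∈ F i, ∀ y ∈ F j, (1 / 2 : ℝ) • (x - y) ∈ K

variable {n : ℕ} {K : Set E} {F : Fin n → Set E}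

lemma Dat.zero (h : Dat K F) : (0 : E) ∈ K := interior_subset h.int0

lemma Dat.leN (h : Dat K F) (u : E →L[ℝ] ℝ) {x : E} (hx : x ∈ K) : u x ≤ N K u :=
  le_csSup (h.cpt.bddAbove_image u.continuous.continuousOn) ⟨x, hx, rfl⟩

lemma Dat.exN (h : Dat K F) (u : E →L[ℝ] ℝ) : ∃ x ∈ K, u x = N K u := by
  obtain ⟨x, hx, hmax⟩ := h.cpt.exists_isMaxOn ⟨0, h.zero⟩ u.continuous.continuousOn
  refine ⟨x, hx, le_antisymm (h.leN u hx) ?_⟩
  refine csSup_le ⟨u x, x, hx, rfl⟩ ?_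
  rintro _ ⟨y, hy, rfl⟩
  exact hmax hy

lemma Dat.N_eq (h : Dat K F) {u : E →L[ℝ] ℝ} {x : E} (hx : x ∈ K) (hu : ∀ y ∈ K, u y ≤ u x) : N K u = u x := by
  obtain ⟨y, hy, hyN⟩ := h.exN u
  exact le_antisymm (hyN ▸ hu y hy) (h.leN u hx)

lemma Dat.N0 (h : Dat K F) (u : E →L[ℝ] ℝ) : 0 ≤ N K u := by
  have := h.leN u h.zero
  rwa [map_zero] at this

lemma Dat.N_zero (h : Dat K F) : N K (0 : E →L[ℝ] ℝ) = 0 := by
  obtain ⟨x, -, hx⟩ := h.exN 0
  rw [← hx]
  rfl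

lemma Dat.N_smul (h : Dat K F) (u : E →L[ℝ] ℝ) {c : ℝ} (hc : 0 ≤ c) : N K (c • u) = c * N K u := by
  obtain ⟨x, hx, hxN⟩ := h.exN u
  have h1 := h.N_eq (u := c • u) hx (fun y hy => by
    show c * u y ≤ c * u x
    exact mul_le_mul_of_nonneg_left (hxN ▸ h.leN u hy) hc)
  rw [h1, ← hxN]
  rfl

lemma Dat.N_neg (h : Dat K F) (u : E →L[ℝ] ℝ) : N K (-u) = N K u := by
  have key : ∀ v : E →L[ℝ] ℝ, N K (-v) ≤ N K v := by
    intro v
    obtain ⟨x, hx, hxN⟩ := h.exN (-v)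
    rw [← hxN]
    have := h.leN v (h.sym x hx)
    rw [map_neg] at this
    exact this
  refine le_antisymm (key u) ?_
  have := key (-u)
  rwa [neg_neg] at this

/-- a nonzero functional is positive somewhere near zero -/
lemma exists_pos {u : E →L[ℝ] ℝ} (hu : u ≠ 0) : ∃ v : E, 0 < u v := by
  by_contra hc
  push Not at hc
  refine hu (ContinuousLinearMap.ext fun v => ?_)
  have h1 := hc v
  have h2 := hc (-v)
  rw [map_neg] at h2
  show u v = 0
  linarith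

/-- moving inside the interior -/
lemma exists_small {x : E} (hx : x ∈ interior K) (v : E) : ∃ ε : ℝ, 0 < ε ∧ ε ≤ 1 ∧ x + ε • v ∈ K := by
  have hc : Continuous fun ε : ℝ => x + ε • v := by fun_prop
  have h0 : (fun ε : ℝ => x + ε • v) 0 ∈ interior K := by simpa using hx
  have h1 : ∀ᶠ ε in nhds (0 : ℝ), x + ε • v ∈ interior K :=
    hc.continuousAt.eventually (isOpen_interior.mem_nhds h0)
  obtain ⟨r, hr, hb⟩ := Metric.eventually_nhds_iff.1 h1
  refine ⟨min (r / 2) 1, lt_min (by linarith) one_pos, min_le_right _ _, interior_subset (hb ?_)⟩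
  rw [Real.dist_eq, sub_zero, abs_of_pos (lt_min (by linarith) one_pos)]
  exact (min_le_left _ _).trans_lt (by linarith)

lemma Dat.Npos (h : Dat K F) {u : E →L[ℝ] ℝ} (hu : u ≠ 0) : 0 < N K u := by
  obtain ⟨v, hv⟩ := exists_pos hu
  obtain ⟨ε, hε, -, hm⟩ := exists_small h.int0 v
  have h1 := h.leN u hm
  rw [zero_add, map_smul, smul_eq_mul] at h1
  exact (mul_pos hε hv).trans_le h1

/-- Support line at a boundary point. -/
lemma Dat.support (h : Dat K F) {w : E} (hwi : w ∉ interior K) :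
    ∃ u : E →L[ℝ] ℝ, (∀ x ∈ K, u x ≤ 1) ∧ u w = 1 := by
  obtain ⟨f, hf⟩ := geometric_hahn_banach_open_point h.cvx.interior isOpen_interior hwi
  have hw0 : 0 < f w := by
    have := hf 0 h.int0
    rwa [map_zero] at this
  refine ⟨(f w)⁻¹ • f, fun x hx => ?_, ?_⟩
  · show (f w)⁻¹ * f x ≤ 1
    rw [inv_mul_le_one₀ hw0]
    by_contra hc
    push Not at hc
    have hx0 : 0 < f x := hw0.trans hc
    have h1 : f w / f x < 1 := (div_lt_one hx0).2 hc
    have h2 := h.cvx.combo_interior_self_mem_interior h.int0 hx (a := 1 - f w / f x) (b := f w / f x)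
      (by linarith) (by positivity) (by ring)
    have h3 := hf _ h2
    rw [smul_zero, zero_add, map_smul, smul_eq_mul, div_mul_cancel₀ _ hx0.ne'] at h3
    exact lt_irrefl _ h3
  · show (f w)⁻¹ * f w = 1
    exact inv_mul_cancel₀ hw0.ne'

/-- A maximiser of a nonzero functional is not interior. -/
lemma exists_better {ψ : E →L[ℝ] ℝ} (hψ : ψ ≠ 0) {x : E} (hx : x ∈ interior K) : ∃ t ∈ K, ψ x < ψ t := by
  obtain ⟨v, hv⟩ := exists_pos hψ
  obtain ⟨ε, hε, -, hm⟩ := exists_small hx v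
  refine ⟨_, hm, ?_⟩
  rw [map_add, map_smul, smul_eq_mul]
  have := mul_pos hε hv
  linarith

/-- The inscribed hexagon with a given vertex. -/
lemma Dat.triple (h : Dat K F) {a : E} (ha : a ∈ K) (ha0 : a ≠ 0) :
    ∃ r ∈ K, a + r ∈ K ∧ ∃ u₂ u₃ : E →L[ℝ] ℝ, (∀ x ∈ K, u₂ x ≤ 1) ∧ u₂ r = 1 ∧ (∀ x ∈ K, u₃ x ≤ 1) ∧ u₃ (a + r) = 1 := by
  -- the functional vanishing on `a`
  obtain ⟨ψ, hψ⟩ : ∃ ψ : E →L[ℝ] ℝ, ∀ z, ψ z = a 0 * z 1 - a 1 * z 0 :=
    ⟨a 0 • (EuclideanSpace.proj (1 : Fin 2) : E →L[ℝ] ℝ) - a 1 • (EuclideanSpace.proj (0 : Fin 2) : E →L[ℝ] ℝ),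
      fun z => rfl⟩
  have hψa : ψ a = 0 := by
    rw [hψ]
    ring
  have hψ0 : ψ ≠ 0 := by
    intro h0
    apply ha0
    have h1 := hψ (!₂[-a 1, a 0])
    rw [h0] at h1
    have h2 : a 0 * a 0 + a 1 * a 1 = 0 := by
      simp at h1
      linarith
    have h3 : a 0 = 0 := by nlinarith [mul_self_nonneg (a 0), mul_self_nonneg (a 1)]
    have h4 : a 1 = 0 := by nlinarith [mul_self_nonneg (a 0), mul_self_nonneg (a 1)]
    exact ext2 (by simpa using h3) (by simpa using h4)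
  obtain ⟨T, hT⟩ : ∃ T : Set E, T = K ∩ (fun z => a + z) ⁻¹' K := ⟨_, rfl⟩
  have hTc : IsCompact T := by
    rw [hT]
    exact h.cpt.inter_right (h.cpt.isClosed.preimage (by fun_prop))
  have hTn : T.Nonempty := ⟨-a, by
    rw [hT]
    exact ⟨h.sym a ha, by
      show a + -a ∈ K
      rw [add_neg_cancel]
      exact h.zero⟩⟩
  obtain ⟨r, hr, hmax⟩ := hTc.exists_isMaxOn hTn ψ.continuous.continuousOn
  have hr' := hr
  rw [hT] at hr'
  obtain ⟨hrK, harK⟩ := hr'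
  have harK' : a + r ∈ K := harK
  have hmax' : ∀ z, z ∈ K → a + z ∈ K → ψ z ≤ ψ r := by
    intro z h1 h2
    exact hmax (show z ∈ T by rw [hT]; exact ⟨h1, h2⟩)
  have hri : r ∉ interior K := by
    intro hi
    obtain ⟨t, htK, ht⟩ := exists_better hψ0 hi
    obtain ⟨ε, hε, hε1, hm⟩ := exists_small hi (t - a - r)
    have h1 : a + (r + ε • (t - a - r)) ∈ K := by
      have h2 := h.cvx harK' htK (by linarith : 0 ≤ 1 - ε) hε.le (by ring)
      have e : (1 - ε) • (a + r) + ε • t = a + (r + ε • (t - a - r)) := by module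
      rwa [e] at h2
    have h2 := hmax' _ hm h1
    rw [map_add, map_smul, map_sub, map_sub, hψa, smul_eq_mul] at h2
    have := mul_pos hε (sub_pos.2 ht)
    linarith
  have hari : a + r ∉ interior K := by
    intro hi
    obtain ⟨t, htK, ht⟩ := exists_better hψ0 hi
    rw [map_add, hψa, zero_add] at ht
    obtain ⟨ε, hε, hε1, hm⟩ := exists_small hi (t - r)
    have h1 : r + ε • (t - r) ∈ K := by
      have h2 := h.cvx hrK htK (by linarith : 0 ≤ 1 - ε) hε.le (by ring)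
      have e : (1 - ε) • r + ε • t = r + ε • (t - r) := by module
      rwa [e] at h2
    have h3 : a + (r + ε • (t - r)) ∈ K := by
      rwa [← add_assoc]
    have h2 := hmax' _ h1 h3
    rw [map_add, map_smul, map_sub, smul_eq_mul] at h2
    have := mul_pos hε (sub_pos.2 ht)
    linarith
  obtain ⟨u₂, h2, h2'⟩ := h.support hri
  obtain ⟨u₃, h3, h3'⟩ := h.support hari
  exact ⟨r, hrK, harK', u₂, u₃, h2, h2', h3, h3'⟩

/-- The boundary point in the direction `d`. -/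
lemma Dat.ray (h : Dat K F) {d : E} (hd : (1 / 2 : ℝ) • d ∈ K) {ψ : E →L[ℝ] ℝ} (hψ : ∀ x ∈ K, ψ x ≤ 1)
    (hψd : 1 ≤ ψ d) : ∃ μ : ℝ, 0 ≤ μ ∧ μ ≤ 1 ∧ ∃ w ∈ K, (1 + μ) • w = d ∧
      ∃ u : E →L[ℝ] ℝ, (∀ x ∈ K, u x ≤ 1) ∧ u w = 1 := by
  obtain ⟨T, hT⟩ : ∃ T : Set ℝ, T = Icc 0 1 ∩ (fun t : ℝ => t • d) ⁻¹' K := ⟨_, rfl⟩
  have hTc : IsCompact T := by
    rw [hT]
    exact isCompact_Icc.inter_right (h.cpt.isClosed.preimage (by fun_prop))
  have hh : (1 / 2 : ℝ) ∈ T := by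
    rw [hT]
    exact ⟨⟨by norm_num, by norm_num⟩, hd⟩
  obtain ⟨τ, hτ, hmax⟩ := hTc.exists_isMaxOn ⟨_, hh⟩ continuous_id.continuousOn
  have hτ' := hτ
  rw [hT] at hτ'
  obtain ⟨⟨h0, h1⟩, hK⟩ := hτ'
  have hτ2 : 1 / 2 ≤ τ := hmax hh
  have hKτ : τ • d ∈ K := hK
  have hni : τ • d ∉ interior K := by
    intro hi
    obtain ⟨ε, hε, -, hm⟩ := exists_small hi d
    rw [← add_smul] at hm
    have h2 := hψ _ hm
    rw [map_smul, smul_eq_mul] at h2
    have h3 : τ + ε ≤ 1 := by nlinarith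
    have h4 : τ + ε ∈ T := by
      rw [hT]
      exact ⟨⟨by linarith, h3⟩, hm⟩
    have h5 : τ + ε ≤ τ := hmax h4
    linarith
  obtain ⟨u, hu, hu'⟩ := h.support hni
  have hτ0 : 0 < τ := by linarith
  refine ⟨1 / τ - 1, ?_, ?_, τ • d, hKτ, ?_, u, hu, hu'⟩
  · have : 1 ≤ 1 / τ := by rwa [le_div_iff₀ hτ0, one_mul]
    linarith
  · have : 1 / τ ≤ 2 := by
      rw [div_le_iff₀ hτ0]
      linarith
    linarith
  · rw [smul_smul]
    have : (1 + (1 / τ - 1)) * τ = 1 := by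
      field_simp
      ring
    rw [this, one_smul]

lemma Dat.cross (h : Dat K F) (u : E →L[ℝ] ℝ) {i j : Fin n} (hij : i ≠ j) {x y : E} (hx : x ∈ F i) (hy : y ∈ F j) :
    u (x - y) ≤ 2 * N K u := by
  have h1 := h.leN u (h.int i j hij x hx y hy)
  rw [map_smul, smul_eq_mul] at h1
  linarith

lemma Dat.unique (h : Dat K F) {u : E →L[ℝ] ℝ} {i j : Fin n} (hi : Own K F u i) (hj : Own K F u j) : i = j := by
  by_contra hij
  obtain ⟨x, hx, y, hy, hxy⟩ := hi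
  obtain ⟨z, hz, t, ht, hzt⟩ := hj
  have h1 := h.cross u hij hx ht
  have h2 := h.cross u (Ne.symm hij) hz hy
  rw [map_sub] at hxy hzt h1 h2
  linarith

lemma Dat.fine_own (h : Dat K F) {u : E →L[ℝ] ℝ} {m : Fin n} (hm : Own K F u m) : Fine K F u m := by
  intro i hi j hj x hx y hy
  by_cases hij : i = j
  · subst hij
    by_contra hc
    push Not at hc
    exact hi (h.unique ⟨x, hx, y, hy, hc⟩ hm)
  · exact h.cross u hij hx hy

lemma Dat.fine_un (h : Dat K F) {u : E →L[ℝ] ℝ} (hu : ∀ i, ¬ Own K F u i) (m : Fin n) : Fine K F u m := by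
  intro i hi j hj x hx y hy
  by_cases hij : i = j
  · subst hij
    by_contra hc
    push Not at hc
    exact hu i ⟨x, hx, y, hy, hc⟩
  · exact h.cross u hij hx hy

lemma Dat.ex_fine (h : Dat K F) (m₀ : Fin n) (u : E →L[ℝ] ℝ) : ∃ m, Fine K F u m := by
  by_cases hu : ∃ i, Own K F u i
  · obtain ⟨i, hi⟩ := hu
    exact ⟨i, h.fine_own hi⟩
  · push Not at hu
    exact ⟨m₀, h.fine_un hu m₀⟩

lemma Dat.own_smul (h : Dat K F) {u : E →L[ℝ] ℝ} {i : Fin n} {c : ℝ} (hc : 0 < c) : Own K F (c • u) i ↔ Own K F u i := by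
  have key : ∀ (v : E →L[ℝ] ℝ) (c : ℝ), 0 < c → Own K F v i → Own K F (c • v) i := by
    rintro v c hc ⟨x, hx, y, hy, hxy⟩
    refine ⟨x, hx, y, hy, ?_⟩
    rw [h.N_smul v hc.le]
    show 2 * (c * N K v) < c * v (x - y)
    have := mul_lt_mul_of_pos_left hxy hc
    linarith
  refine ⟨fun h1 => ?_, key u c hc⟩
  have h2 := key _ c⁻¹ (inv_pos.2 hc) h1
  rwa [smul_smul, inv_mul_cancel₀ hc.ne', one_smul] at h2

lemma Dat.own_neg (h : Dat K F) {u : E →L[ℝ] ℝ} {i : Fin n} (hu : Own K F u i) : Own K F (-u) i := by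
  obtain ⟨x, hx, y, hy, hxy⟩ := hu
  refine ⟨y, hy, x, hx, ?_⟩
  rw [h.N_neg]
  show 2 * N K u < -(u (y - x))
  rw [← map_neg, neg_sub]
  exact hxy

/-- Between two directions with different owners there is a direction without owner. -/
lemma Dat.path (h : Dat K F) {u v : E →L[ℝ] ℝ} {i j : Fin n} (hij : i ≠ j) (hu : Own K F u i) (hv : Own K F v j) :
    ∃ θ : ℝ, 0 < θ ∧ θ < 1 ∧ (∀ m, ¬ Own K F ((1 - θ) • u + θ • v) m) ∧ (1 - θ) • u + θ • v ≠ 0 := by
  obtain ⟨p, hp⟩ : ∃ p : ℝ → (E →L[ℝ] ℝ), ∀ θ, p θ = (1 - θ) • u + θ • v := ⟨_, fun _ => rfl⟩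
  have hpx : ∀ θ z, p θ z = (1 - θ) * u z + θ * v z := by
    intro θ z
    rw [hp]
    rfl
  have hNc : Continuous fun θ : ℝ => N K (p θ) := by
    have h1 : Continuous (fun q : ℝ × E => p q.1 q.2) := by
      simp only [hpx]
      have hu' := u.continuous
      have hv' := v.continuous
      fun_prop
    exact h.cpt.continuous_sSup (f := fun θ z => p θ z) h1
  have hopen : ∀ m, IsOpen {θ : ℝ | Own K F (p θ) m} := by
    intro m
    have e : {θ : ℝ | Own K F (p θ) m} = ⋃ x ∈ F m, ⋃ y ∈ F m, {θ : ℝ | 2 * N K (p θ) < p θ (x - y)} := by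
      ext θ
      simp only [mem_setOf_eq, mem_iUnion, Own, exists_prop]
    rw [e]
    refine isOpen_biUnion fun x _ => isOpen_biUnion fun y _ => ?_
    refine isOpen_lt (by fun_prop) ?_
    simp only [hpx]
    fun_prop
  have hp0 : p 0 = u := by
    rw [hp, sub_zero, one_smul, zero_smul, add_zero]
  have hp1 : p 1 = v := by
    rw [hp, sub_self, zero_smul, one_smul, zero_add]
  have hex : ∃ θ ∈ Icc (0 : ℝ) 1, ∀ m, ¬ Own K F (p θ) m := by
    by_contra hc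
    push Not at hc
    have hV : IsOpen (⋃ m ∈ {m : Fin n | m ≠ i}, {θ : ℝ | Own K F (p θ) m}) :=
      isOpen_biUnion fun m _ => hopen m
    obtain ⟨θ, -, h1, h2⟩ := isPreconnected_Icc (α := ℝ) (a := 0) (b := 1) _ _ (hopen i) hV (by
      intro θ hθ
      obtain ⟨m, hm⟩ := hc θ hθ
      by_cases hmi : m = i
      · left
        rw [← hmi]
        exact hm
      · right
        exact mem_biUnion (show m ∈ {m : Fin n | m ≠ i} from hmi) hm)
      ⟨0, by simp, by show Own K F (p 0) i; rw [hp0]; exact hu⟩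
      ⟨1, by simp, mem_biUnion (show j ∈ {m : Fin n | m ≠ i} from Ne.symm hij) (by
        show Own K F (p 1) j
        rw [hp1]
        exact hv)⟩
    obtain ⟨m, hm, h3⟩ := mem_iUnion₂.1 h2
    exact hm (h.unique h3 h1)
  obtain ⟨θ, ⟨hθ0, hθ1⟩, hθ⟩ := hex
  have h0 : 0 < θ := by
    refine lt_of_le_of_ne hθ0 fun e => ?_
    rw [← e, hp0] at hθ
    exact hθ i hu
  have h1 : θ < 1 := by
    refine lt_of_le_of_ne hθ1 fun e => ?_
    rw [e, hp1] at hθ
    exact hθ j hv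
  refine ⟨θ, h0, h1, fun m => by rw [← hp]; exact hθ m, fun e => ?_⟩
  have e2 : θ • v = -((1 - θ) • u) := by
    rw [eq_neg_iff_add_eq_zero, add_comm]
    exact e
  have h2 : Own K F (θ • v) j := (h.own_smul h0).2 hv
  rw [e2] at h2
  have h3 := h.own_neg h2
  rw [neg_neg] at h3
  exact hij (h.unique hu ((h.own_smul (by linarith)).1 h3))

end Pool.Agent.H83.Sym
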