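import Mathlib

/-! Planar covering by three translates of a centrally symmetric hexagon: real inequalities. -/

set_option autoImplicit false

namespace Pool.Agent.H83.Sym

/-- The parameters of the covering lemma. -/
structure Par (μ m n k l : ℝ) : Prop where
  u0 : 0 ≤ μ
  u1 : μ ≤ 1
  m0 : -μ ≤ m
  m1 : m ≤ 1
  n0 : -μ ≤ n
  n1 : n ≤ 1
  mn : 0 ≤ m + n
  k0 : μ ≤ k
  k1 : k ≤ 1
  l0 : μ ≤ l
  l1 : l ≤ 1
  kl : k + l = 1 + μ

variable {μ m n k l : ℝ}

lemma Par.swap (h : Par μ m n k l) : Par μ n m l k :=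
  ⟨h.u0, h.u1, h.n0, h.n1, h.m0, h.m1, by linarith [h.mn], h.l0, h.l1, h.k0, h.k1, by linarith [h.kl]⟩

/-- `D1` -/
lemma Par.d1 (h : Par μ m n k l) : 0 ≤ l + n * k := by
  have h1 := h.n0
  have h2 := h.k1
  have h3 := h.l0
  have h4 := h.u0
  have h5 : 0 ≤ k := by linarith [h.k0]
  nlinarith [mul_nonneg (by linarith : 0 ≤ n + μ) h5, mul_nonneg h4 (by linarith : 0 ≤ 1 - k)]

lemma Par.b1 (h : Par μ m n k l) : (l - k * μ) + (n + μ) ≤ (2 - μ) * (l + n * k) := by
  have hl : l = 1 + μ - k := by linarith [h.kl]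
  have e : (2 - μ) * (l + n * k) - ((l - k * μ) + (n + μ)) =
      (1 - μ) * (1 - n) * (l - μ) + (n + μ) * (1 - l) := by
    rw [hl]
    ring
  have h1 : 0 ≤ (1 - μ) * (1 - n) * (l - μ) :=
    mul_nonneg (mul_nonneg (by linarith [h.u1]) (by linarith [h.n1])) (by linarith [h.l0])
  have h2 : 0 ≤ (n + μ) * (1 - l) := mul_nonneg (by linarith [h.n0]) (by linarith [h.l1])
  linarith

lemma Par.c1 (h : Par μ m n k l) : n + μ ≤ l + n * k := by
  have hl : l = 1 + μ - k := by linarith [h.kl]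
  have e : l + n * k - (n + μ) = (1 - k) * (1 - n) := by
    rw [hl]
    ring
  have h1 : 0 ≤ (1 - k) * (1 - n) := mul_nonneg (by linarith [h.k1]) (by linarith [h.n1])
  linarith

lemma Par.e1 (h : Par μ m n k l) : 0 ≤ l - k * μ := by
  have h1 := h.l0
  have h2 := h.k1
  have h3 := h.u0
  nlinarith

/-- `D1 = 0` is degenerate. -/
lemma Par.z1 (h : Par μ m n k l) (hz : l + n * k = 0) : n = -μ ∧ k = 1 ∧ l = μ := by
  have h5 : 0 ≤ (n + μ) * k := mul_nonneg (by linarith [h.n0]) (by linarith [h.k0, h.u0])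
  have h6 : 0 ≤ μ * (1 - k) := mul_nonneg h.u0 (by linarith [h.k1])
  have h7 : l - μ ≤ 0 := by nlinarith
  have hl : l = μ := le_antisymm (by linarith) h.l0
  have hk : k = 1 := by linarith [h.kl]
  refine ⟨?_, hk, hl⟩
  rw [hl, hk] at hz
  linarith

lemma Par.two (h : Par μ m n k l) : 2 * (m * n) ≤ m + n := by
  rcases le_total 0 m with hm | hm
  · rcases le_total 0 n with hn | hn
    · nlinarith [mul_nonneg hm (by linarith [h.n1] : 0 ≤ 1 - n), mul_nonneg hn (by linarith [h.m1] : 0 ≤ 1 - m)]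
    · nlinarith [mul_nonneg hm (by linarith : 0 ≤ -n), h.mn]
  · have hn : 0 ≤ n := by linarith [h.mn]
    nlinarith [mul_nonneg hn (by linarith : 0 ≤ -m), h.mn]

lemma Par.mn1 (h : Par μ m n k l) : m * n ≤ 1 := by
  have := h.two
  linarith [h.m1, h.n1]

lemma Par.eq1 (h : Par μ m n k l) (e : m * n = 1) : m = 1 ∧ n = 1 := by
  have := h.two
  exact ⟨by linarith [h.m1, h.n1], by linarith [h.m1, h.n1]⟩

/-- The corner `A`. -/
lemma Par.s2 (h : Par μ m n k l) {x y : ℝ} (hf : x + m * y ≤ 1) (hg : y + n * x ≤ 1) : x + y ≤ 2 := by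
  rcases h.mn1.lt_or_eq with h1 | h1
  · have e : (1 - m * n) * (x + y) = (1 - n) * (x + m * y) + (1 - m) * (y + n * x) := by ring
    have h2 : (1 - n) * (x + m * y) ≤ (1 - n) * 1 := mul_le_mul_of_nonneg_left hf (by linarith [h.n1])
    have h3 : (1 - m) * (y + n * x) ≤ (1 - m) * 1 := mul_le_mul_of_nonneg_left hg (by linarith [h.m1])
    have h4 := h.two
    have h5 : (1 - m * n) * (x + y) ≤ (1 - m * n) * 2 := by linarith
    exact le_of_mul_le_mul_left h5 (by linarith)
  · obtain ⟨rfl, rfl⟩ := h.eq1 h1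
    linarith

/-- Upper bound of `p`. -/
lemma Par.pu (h : Par μ m n k l) {x y t : ℝ} (ht : 0 ≤ t) (hg : y + n * x ≤ 1) (hh : k * y - l * x ≤ 1 + t) :
    y - μ * x ≤ 2 - μ + t := by
  rcases h.d1.lt_or_eq with h1 | h1
  · have e : (l + n * k) * (y - μ * x) = (n + μ) * (k * y - l * x) + (l - k * μ) * (y + n * x) := by ring
    have h2 : (n + μ) * (k * y - l * x) ≤ (n + μ) * (1 + t) := mul_le_mul_of_nonneg_left hh (by linarith [h.n0])
    have h3 : (l - k * μ) * (y + n * x) ≤ (l - k * μ) * 1 := mul_le_mul_of_nonneg_left hg h.e1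
    have h4 := h.b1
    have h5 : (n + μ) * t ≤ (l + n * k) * t := mul_le_mul_of_nonneg_right h.c1 ht
    have h6 : (l + n * k) * (y - μ * x) ≤ (l + n * k) * (2 - μ + t) := by linarith
    exact le_of_mul_le_mul_left h6 h1
  · obtain ⟨rfl, -, -⟩ := h.z1 h1.symm
    linarith [h.u1]

/-- Lower bound of `p`. -/
lemma Par.pl (h : Par μ m n k l) {x y : ℝ} (hg : -1 ≤ y + n * x) (hh : -1 ≤ k * y - l * x) :
    -(2 - μ) ≤ y - μ * x := by
  have := h.pu (x := -x) (y := -y) (t := 0) le_rfl (by linarith) (by linarith)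
  linarith

/-- Spread of `p`. -/
lemma Par.pp (h : Par μ m n k l) {x y x' y' : ℝ} (hg : y + n * x ≤ 1) (hg' : -1 ≤ y' + n * x')
    (hh : (k * y - l * x) - (k * y' - l * x') ≤ 2) : (y - μ * x) - (y' - μ * x') ≤ 4 := by
  have := h.pu (x := (x - x') / 2) (y := (y - y') / 2) (t := 0) le_rfl (by linarith) (by linarith)
  linarith [h.u0]

/-- The main inequality. -/
lemma Par.pq (h : Par μ m n k l) {x y x' y' : ℝ} (hg : y + n * x ≤ 1) (hg' : y' + n * x' ≤ 1)
    (hf' : x' + m * y' ≤ 1) (hh' : -1 ≤ k * y' - l * x')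
    (hh : (k * y - l * x) - (k * y' - l * x') ≤ 2) : (y - μ * x) - (μ * y' - x') ≤ 4 := by
  have hn := h.n0
  have hm := h.m0
  rcases le_or_gt ((m + μ) * (l + n * k)) ((n + μ) * (l * m + k)) with hS | hS
  · -- first certificate
    rcases h.d1.lt_or_eq with h1 | h1
    · have e1 : (l + n * k) * ((y - μ * x) - (μ * y' - x')) =
          (n + μ) * ((k * y - l * x) - (k * y' - l * x')) + (l - k * μ) * ((y + n * x) - (y' + n * x')) +
            (l + n * k) * ((1 - μ) * (x' + y')) := by ring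
      have h2 : (n + μ) * ((k * y - l * x) - (k * y' - l * x')) ≤ (n + μ) * 2 :=
        mul_le_mul_of_nonneg_left hh (by linarith)
      have h3 : (l - k * μ) * ((y + n * x) - (y' + n * x')) ≤ (l - k * μ) * (1 - (y' + n * x')) :=
        mul_le_mul_of_nonneg_left (by linarith) h.e1
      have h4 : (l - k * μ) * (1 - (y' + n * x')) + (l + n * k) * ((1 - μ) * (x' + y')) ≤ (l + n * k) * 2 := by
        rcases h.mn1.lt_or_eq with h5 | h5
        · have e2 : (1 - m * n) * ((l - k * μ) * (1 - (y' + n * x')) + (l + n * k) * ((1 - μ) * (x' + y'))) =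
              (l + n * k) * (1 - μ) * (1 - n) * (x' + m * y') + (l - k * μ) * (1 - m * n) +
              ((n + μ) * (l * m + k) - (m + μ) * (l + n * k)) * (y' + n * x') := by
            ring
          have h6 : (l + n * k) * (1 - μ) * (1 - n) * (x' + m * y') ≤ (l + n * k) * (1 - μ) * (1 - n) * 1 :=
            mul_le_mul_of_nonneg_left hf' (mul_nonneg (mul_nonneg h1.le (by linarith [h.u1])) (by linarith [h.n1]))
          have h7 : ((n + μ) * (l * m + k) - (m + μ) * (l + n * k)) * (y' + n * x') ≤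
              ((n + μ) * (l * m + k) - (m + μ) * (l + n * k)) * 1 :=
            mul_le_mul_of_nonneg_left hg' (by linarith)
          have h8 : (l + n * k) * (1 - μ) * (2 - m - n) ≤ (l + n * k) * (1 - μ) * (2 * (1 - m * n)) :=
            mul_le_mul_of_nonneg_left (by linarith [h.two]) (mul_nonneg h1.le (by linarith [h.u1]))
          have h9 : 0 ≤ (l + n * k) * μ * (1 - m * n) := mul_nonneg (mul_nonneg h1.le h.u0) (by linarith)
          have h10 : (1 - m * n) * ((l - k * μ) * (1 - (y' + n * x')) + (l + n * k) * ((1 - μ) * (x' + y'))) ≤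
              (1 - m * n) * ((l + n * k) * 2) := by
            nlinarith
          exact le_of_mul_le_mul_left h10 (by linarith)
        · obtain ⟨rfl, rfl⟩ := h.eq1 h5
          have hl : l = 1 + μ - k := by linarith [h.kl]
          subst hl
          nlinarith [mul_nonneg (by linarith [h.u0] : 0 ≤ 1 + μ) (mul_nonneg (by linarith [h.k0] : 0 ≤ k - μ)
            (by linarith : 0 ≤ 1 - (y' + 1 * x'))), h.u0, h.u1]
      have h5 := h.c1
      have h6 : (l + n * k) * ((y - μ * x) - (μ * y' - x')) ≤ (l + n * k) * 4 := by linarith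
      exact le_of_mul_le_mul_left h6 h1
    · obtain ⟨rfl, rfl, rfl⟩ := h.z1 h1.symm
      have h2 := h.swap.pl (x := -y') (y := -x') (by linarith) (by linarith)
      linarith [h.u0]
  · -- second certificate
    have h1 := h.d1
    have h1' := h.swap.d1
    rcases h1.lt_or_eq with h2 | h2
    · rcases h1'.lt_or_eq with h3 | h3
      · have e1 : (l + n * k) * (k + m * l) * ((y - μ * x) - (μ * y' - x')) =
            (k + m * l) * (l - k * μ) * (y + n * x) + (l + n * k) * (k - l * μ) * (x' + m * y') +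
            (k + m * l) * (n + μ) * ((k * y - l * x) - (k * y' - l * x')) +
            ((m + μ) * (l + n * k) - (n + μ) * (l * m + k)) * (-(k * y' - l * x')) := by
          ring
        have h4 : (k + m * l) * (l - k * μ) * (y + n * x) ≤ (k + m * l) * (l - k * μ) * 1 :=
          mul_le_mul_of_nonneg_left hg (mul_nonneg h1' h.e1)
        have h5 : (l + n * k) * (k - l * μ) * (x' + m * y') ≤ (l + n * k) * (k - l * μ) * 1 :=
          mul_le_mul_of_nonneg_left hf' (mul_nonneg h1 h.swap.e1)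
        have h6 : (k + m * l) * (n + μ) * ((k * y - l * x) - (k * y' - l * x')) ≤ (k + m * l) * (n + μ) * 2 :=
          mul_le_mul_of_nonneg_left hh (mul_nonneg h1' (by linarith))
        have h7 : ((m + μ) * (l + n * k) - (n + μ) * (l * m + k)) * (-(k * y' - l * x')) ≤
            ((m + μ) * (l + n * k) - (n + μ) * (l * m + k)) * 1 :=
          mul_le_mul_of_nonneg_left (by linarith) (by linarith)
        have h8 : (k + m * l) * ((l - k * μ) + (n + μ)) ≤ (k + m * l) * ((2 - μ) * (l + n * k)) :=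
          mul_le_mul_of_nonneg_left h.b1 h1'
        have h9 : (l + n * k) * ((k - l * μ) + (m + μ)) ≤ (l + n * k) * ((2 - μ) * (k + m * l)) :=
          mul_le_mul_of_nonneg_left h.swap.b1 h1
        have h10 : 0 ≤ (l + n * k) * (k + m * l) * μ := mul_nonneg (mul_nonneg h1 h1') h.u0
        have h11 : (l + n * k) * (k + m * l) * ((y - μ * x) - (μ * y' - x')) ≤ (l + n * k) * (k + m * l) * 4 := by
          nlinarith
        exact le_of_mul_le_mul_left h11 (mul_pos h2 h3)
      · obtain ⟨h4, h5, h6⟩ := h.swap.z1 h3.symm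
        exfalso
        rw [h4, h5, h6] at hS
        linarith
    · obtain ⟨rfl, rfl, rfl⟩ := h.z1 h2.symm
      have h2 := h.swap.pl (x := -y') (y := -x') (by linarith) (by linarith)
      linarith [h.u0]

/-- The real form of the covering lemma: the six conditions on a point for the shift `t`. -/
structure Ok (μ t x y : ℝ) : Prop where
  a : y - μ * x - (2 + μ) ≤ t
  b : μ * y - x - (2 + μ) ≤ t
  c : t ≤ y - μ * x + (2 - μ)
  d : t ≤ μ * y - x + (2 - μ)

/-- The region. -/
structure Reg (m n k l C x y : ℝ) : Prop where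
  f0 : -1 ≤ x + m * y
  f1 : x + m * y ≤ 1
  g0 : -1 ≤ y + n * x
  g1 : y + n * x ≤ 1
  h0 : C - 1 ≤ k * y - l * x
  h1 : k * y - l * x ≤ C + 1

lemma Reg.swap {C x y : ℝ} (h : Reg m n k l C x y) : Reg n m l k C (-y) (-x) :=
  ⟨by linarith [h.g1], by linarith [h.g0], by linarith [h.f1], by linarith [h.f0], by linarith [h.h0], by linarith [h.h1]⟩

/-- Existence of the shift. -/
lemma exists_shift (h : Par μ m n k l) {C : ℝ} (hC : 0 ≤ C) {U : Set (ℝ × ℝ)} (hU : ∀ u ∈ U, Reg m n k l C u.1 u.2) :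
    ∃ t, 0 ≤ t ∧ t ≤ C ∧ ∀ u ∈ U, Ok μ t u.1 u.2 := by
  obtain ⟨L, hL⟩ : ∃ L : Set ℝ, L = {0} ∪ (fun u : ℝ × ℝ => u.2 - μ * u.1 - (2 + μ)) '' U ∪
      (fun u : ℝ × ℝ => μ * u.2 - u.1 - (2 + μ)) '' U := ⟨_, rfl⟩
  have h0 : (0 : ℝ) ∈ L := by
    rw [hL]
    exact Or.inl (Or.inl rfl)
  have hp : ∀ u ∈ U, -(2 - μ) ≤ u.2 - μ * u.1 := fun u hu =>
    h.pl (hU u hu).g0 (by linarith [(hU u hu).h0])
  have hq : ∀ u ∈ U, -(2 - μ) ≤ μ * u.2 - u.1 := fun u hu => by
    have := h.swap.pl (x := -u.2) (y := -u.1) (by linarith [(hU u hu).f1]) (by linarith [(hU u hu).h0])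
    linarith
  have hp1 : ∀ u ∈ U, u.2 - μ * u.1 ≤ 2 - μ + C := fun u hu =>
    h.pu hC (hU u hu).g1 (by linarith [(hU u hu).h1])
  have hq1 : ∀ u ∈ U, μ * u.2 - u.1 ≤ 2 - μ + C := fun u hu => by
    have := h.swap.pu (x := -u.2) (y := -u.1) hC (by linarith [(hU u hu).f0]) (by linarith [(hU u hu).h1])
    linarith
  have hpp : ∀ u ∈ U, ∀ v ∈ U, (u.2 - μ * u.1) - (v.2 - μ * v.1) ≤ 4 := fun u hu v hv =>
    h.pp (hU u hu).g1 (hU v hv).g0 (by linarith [(hU u hu).h1, (hU v hv).h0])
  have hqq : ∀ u ∈ U, ∀ v ∈ U, (μ * u.2 - u.1) - (μ * v.2 - v.1) ≤ 4 := fun u hu v hv => by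
    have := h.swap.pp (x := -u.2) (y := -u.1) (x' := -v.2) (y' := -v.1) (by linarith [(hU u hu).f0])
      (by linarith [(hU v hv).f1]) (by linarith [(hU u hu).h1, (hU v hv).h0])
    linarith
  have hpq : ∀ u ∈ U, ∀ v ∈ U, (u.2 - μ * u.1) - (μ * v.2 - v.1) ≤ 4 := fun u hu v hv =>
    h.pq (hU u hu).g1 (hU v hv).g1 (hU v hv).f1 (by linarith [(hU v hv).h0])
      (by linarith [(hU u hu).h1, (hU v hv).h0])
  have hqp : ∀ u ∈ U, ∀ v ∈ U, (μ * u.2 - u.1) - (v.2 - μ * v.1) ≤ 4 := fun u hu v hv => by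
    have := h.swap.pq (x := -u.2) (y := -u.1) (x' := -v.2) (y' := -v.1) (by linarith [(hU u hu).f0])
      (by linarith [(hU v hv).f0]) (by linarith [(hU v hv).g0]) (by linarith [(hU v hv).h0])
      (by linarith [(hU u hu).h1, (hU v hv).h0])
    linarith
  have hLC : ∀ s ∈ L, s ≤ C := by
    intro s hs
    rw [hL] at hs
    rcases hs with (hs | ⟨u, hu, rfl⟩) | ⟨u, hu, rfl⟩
    · rw [Set.mem_singleton_iff] at hs
      linarith
    · have := hp1 u hu
      show u.2 - μ * u.1 - (2 + μ) ≤ C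
      linarith [h.u0]
    · have := hq1 u hu
      show μ * u.2 - u.1 - (2 + μ) ≤ C
      linarith [h.u0]
  have hLc : ∀ v ∈ U, ∀ s ∈ L, s ≤ v.2 - μ * v.1 + (2 - μ) := by
    intro v hv s hs
    rw [hL] at hs
    rcases hs with (hs | ⟨u, hu, rfl⟩) | ⟨u, hu, rfl⟩
    · rw [Set.mem_singleton_iff] at hs
      linarith [hp v hv]
    · have := hpp u hu v hv
      show u.2 - μ * u.1 - (2 + μ) ≤ _
      linarith
    · have := hqp u hu v hv
      show μ * u.2 - u.1 - (2 + μ) ≤ _
      linarith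
  have hLd : ∀ v ∈ U, ∀ s ∈ L, s ≤ μ * v.2 - v.1 + (2 - μ) := by
    intro v hv s hs
    rw [hL] at hs
    rcases hs with (hs | ⟨u, hu, rfl⟩) | ⟨u, hu, rfl⟩
    · rw [Set.mem_singleton_iff] at hs
      linarith [hq v hv]
    · have := hpq u hu v hv
      show u.2 - μ * u.1 - (2 + μ) ≤ _
      linarith
    · have := hqq u hu v hv
      show μ * u.2 - u.1 - (2 + μ) ≤ _
      linarith
  have hbdd : BddAbove L := ⟨C, fun s hs => hLC s hs⟩
  refine ⟨sSup L, le_csSup hbdd h0, csSup_le ⟨0, h0⟩ hLC, fun u hu => ⟨?_, ?_, ?_, ?_⟩⟩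
  · refine le_csSup hbdd ?_
    rw [hL]
    exact Or.inl (Or.inr ⟨u, hu, rfl⟩)
  · refine le_csSup hbdd ?_
    rw [hL]
    exact Or.inr ⟨u, hu, rfl⟩
  · exact csSup_le ⟨0, h0⟩ (hLc u hu)
  · exact csSup_le ⟨0, h0⟩ (hLd u hu)

/-- The hexagon. -/
structure Hex (μ x y : ℝ) : Prop where
  s0 : -1 ≤ x + y
  s1 : x + y ≤ 1
  p0 : -1 ≤ y - μ * x
  p1 : y - μ * x ≤ 1
  q0 : -1 ≤ μ * y - x
  q1 : μ * y - x ≤ 1

/-- The cluster covers; `e` is the shift, `z` the size `1 / (1 + μ)`. -/
lemma cover (h : Par μ m n k l) {C t e z x y : ℝ} (hC : 0 ≤ C) (ht : 0 ≤ t) (htC : t ≤ C) (he : (1 + μ) * e = t)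
    (hz : (1 + μ) * z = 1) (hR : Reg m n k l C x y) (hO : Ok μ t x y) :
    Hex μ (x - (z - e)) (y - (μ * z + e)) ∨ Hex μ (x - (-1 - e)) (y - (1 + e)) ∨
      Hex μ (x - (-(μ * z) - e)) (y - (-z + e)) := by
  have hu0 := h.u0
  have hu1 := h.u1
  have he0 : 0 ≤ e := by nlinarith
  -- shifted coordinates
  obtain ⟨X, hX⟩ : ∃ X, X = x + e := ⟨_, rfl⟩
  obtain ⟨Y, hY⟩ : ∃ Y, Y = y - e := ⟨_, rfl⟩
  have f0 : -1 ≤ X + m * Y := by
    have : 0 ≤ e * (1 - m) := mul_nonneg he0 (by linarith [h.m1])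
    rw [hX, hY]
    linarith [hR.f0]
  have g1 : Y + n * X ≤ 1 := by
    have : 0 ≤ e * (1 - n) := mul_nonneg he0 (by linarith [h.n1])
    rw [hX, hY]
    linarith [hR.g1]
  have h0 : -1 ≤ k * Y - l * X := by
    have e1 : k * Y - l * X = k * y - l * x - (k + l) * e := by
      rw [hX, hY]
      ring
    rw [e1, h.kl, he]
    linarith [hR.h0]
  have hp : Y - μ * X = y - μ * x - t := by
    rw [hX, hY, ← he]
    ring
  have hq : μ * Y - X = μ * y - x - t := by
    rw [hX, hY, ← he]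
    ring
  have hs2 : x + y ≤ 2 := h.s2 hR.f1 hR.g1
  have hs3 : -2 ≤ x + y := by
    have := h.s2 (x := -x) (y := -y) (by linarith [hR.f0]) (by linarith [hR.g0])
    linarith
  have hXY : X + Y = x + y := by
    rw [hX, hY]
    ring
  have r1 : (1 - μ * μ) * z = 1 - μ := by
    linear_combination (1 - μ) * hz
  have hl : l = 1 + μ - k := by linarith [h.kl]
  have hpqs : (Y - μ * X) - (μ * Y - X) = (1 - μ) * (X + Y) := by ring
  have hOa := hO.a
  have hOb := hO.b
  have hOc := hO.c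
  have hOd := hO.d
  have hA : 0 ≤ X + Y → μ * Y - X ≤ μ → Hex μ (x - (z - e)) (y - (μ * z + e)) := by
    intro hs hqm
    have p1 : Y - μ * X ≤ 1 := by
      rcases le_or_gt 0 X with hX0 | hX0
      · have : 0 ≤ (n + μ) * X := mul_nonneg (by linarith [h.n0]) hX0
        linarith
      · have h1 : μ * (Y - μ * X) = (μ * Y - X) + (1 - μ * μ) * X := by ring
        have h2 : (1 - μ * μ) * X ≤ 0 := mul_nonpos_of_nonneg_of_nonpos (by nlinarith) hX0.le
        rcases hu0.lt_or_eq with h3 | h3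
        · have h4 : μ * (Y - μ * X) ≤ μ * 1 := by linarith
          exact le_of_mul_le_mul_left h4 h3
        · exfalso
          rw [← h3] at hqm
          linarith
    have p0 : -1 ≤ Y - μ * X := by
      have h1 : Y - μ * X = (k * Y - l * X) + (1 - k) * (X + Y) := by
        rw [hl]
        ring
      have h2 : 0 ≤ (1 - k) * (X + Y) := mul_nonneg (by linarith [h.k1]) hs
      linarith
    have ex : x - (z - e) = X - z := by
      rw [hX]
      ring
    have ey : y - (μ * z + e) = Y - μ * z := by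
      rw [hY]
      ring
    rw [ex, ey]
    refine ⟨?_, ?_, ?_, ?_, ?_, ?_⟩
    · linarith
    · linarith
    · linarith
    · linarith
    · have : μ * (Y - μ * z) - (X - z) = (μ * Y - X) + (1 - μ * μ) * z := by ring
      rw [this, r1]
      linarith
    · have : μ * (Y - μ * z) - (X - z) = (μ * Y - X) + (1 - μ * μ) * z := by ring
      rw [this, r1]
      linarith
  have hB : X + Y ≤ 0 → Y - μ * X ≤ μ → Hex μ (x - (-(μ * z) - e)) (y - (-z + e)) := by
    intro hs hpm
    have q1 : μ * Y - X ≤ 1 := by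
      rcases le_or_gt Y 0 with hY0 | hY0
      · have : 0 ≤ (m + μ) * (-Y) := mul_nonneg (by linarith [h.m0]) (by linarith)
        linarith
      · have h1 : μ * (μ * Y - X) = (Y - μ * X) - (1 - μ * μ) * Y := by ring
        have h2 : 0 ≤ (1 - μ * μ) * Y := mul_nonneg (by nlinarith) hY0.le
        rcases hu0.lt_or_eq with h3 | h3
        · have h4 : μ * (μ * Y - X) ≤ μ * 1 := by linarith
          exact le_of_mul_le_mul_left h4 h3
        · exfalso
          rw [← h3] at hpm
          linarith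
    have q0 : -1 ≤ μ * Y - X := by
      have h1 : μ * Y - X = (k * Y - l * X) - (1 - l) * (X + Y) := by
        rw [hl]
        ring
      have h2 : 0 ≤ (1 - l) * (-(X + Y)) := mul_nonneg (by linarith [h.l1]) (by linarith)
      linarith
    have ex : x - (-(μ * z) - e) = X + μ * z := by
      rw [hX]
      ring
    have ey : y - (-z + e) = Y + z := by
      rw [hY]
      ring
    rw [ex, ey]
    refine ⟨?_, ?_, ?_, ?_, ?_, ?_⟩
    · linarith
    · linarith
    · have : (Y + z) - μ * (X + μ * z) = (Y - μ * X) + (1 - μ * μ) * z := by ring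
      rw [this, r1]
      linarith
    · have : (Y + z) - μ * (X + μ * z) = (Y - μ * X) + (1 - μ * μ) * z := by ring
      rw [this, r1]
      linarith
    · linarith
    · linarith
  have hC' : μ ≤ Y - μ * X → μ ≤ μ * Y - X → Hex μ (x - (-1 - e)) (y - (1 + e)) := by
    intro hpm hqm
    have s1 : X + Y ≤ 1 := by
      have h1 : (1 + n * μ) * (X + Y) = (1 + μ) * (Y + n * X) - (1 - n) * (μ * Y - X) := by ring
      have h2 : (1 + μ) * (Y + n * X) ≤ (1 + μ) * 1 := mul_le_mul_of_nonneg_left g1 (by linarith)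
      have h3 : (1 - n) * μ ≤ (1 - n) * (μ * Y - X) := mul_le_mul_of_nonneg_left hqm (by linarith [h.n1])
      have h4 : 0 ≤ (n + μ) * μ := mul_nonneg (by linarith [h.n0]) hu0
      rcases hu1.lt_or_eq with h5 | h5
      · have h6 : 0 < 1 + n * μ := by nlinarith
        have h7 : (1 + n * μ) * (X + Y) ≤ (1 + n * μ) * 1 := by linarith
        exact le_of_mul_le_mul_left h7 h6
      · rcases (show 0 ≤ 1 + n * μ by nlinarith).lt_or_eq with h6 | h6
        · have h7 : (1 + n * μ) * (X + Y) ≤ (1 + n * μ) * 1 := by linarith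
          exact le_of_mul_le_mul_left h7 h6
        · have hn : n = -1 := by
            rw [h5] at h6
            linarith
          have hm : m = 1 := le_antisymm h.m1 (by linarith [h.mn])
          have := hR.f1
          rw [hm] at this
          linarith
    have s0 : -1 ≤ X + Y := by
      have h1 : (1 + m * μ) * (X + Y) = (1 + μ) * (X + m * Y) + (1 - m) * (Y - μ * X) := by ring
      have h2 : (1 + μ) * (-1) ≤ (1 + μ) * (X + m * Y) := mul_le_mul_of_nonneg_left f0 (by linarith)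
      have h3 : (1 - m) * μ ≤ (1 - m) * (Y - μ * X) := mul_le_mul_of_nonneg_left hpm (by linarith [h.m1])
      have h4 : 0 ≤ (m + μ) * μ := mul_nonneg (by linarith [h.m0]) hu0
      rcases hu1.lt_or_eq with h5 | h5
      · have h6 : 0 < 1 + m * μ := by nlinarith
        have h7 : (1 + m * μ) * (-1) ≤ (1 + m * μ) * (X + Y) := by linarith
        exact le_of_mul_le_mul_left h7 h6
      · rcases (show 0 ≤ 1 + m * μ by nlinarith).lt_or_eq with h6 | h6
        · have h7 : (1 + m * μ) * (-1) ≤ (1 + m * μ) * (X + Y) := by linarith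
          exact le_of_mul_le_mul_left h7 h6
        · have hm : m = -1 := by
            rw [h5] at h6
            linarith
          have hn : n = 1 := le_antisymm h.n1 (by linarith [h.mn])
          have := hR.g0
          rw [hn] at this
          linarith
    have ex : x - (-1 - e) = X + 1 := by
      rw [hX]
      ring
    have ey : y - (1 + e) = Y - 1 := by
      rw [hY]
      ring
    rw [ex, ey]
    refine ⟨?_, ?_, ?_, ?_, ?_, ?_⟩ <;> linarith
  rcases le_total 0 (X + Y) with hs | hs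
  · rcases le_total (μ * Y - X) μ with hqm | hqm
    · exact Or.inl (hA hs hqm)
    · refine Or.inr (Or.inl (hC' ?_ hqm))
      have : 0 ≤ (1 - μ) * (X + Y) := mul_nonneg (by linarith) hs
      linarith
  · rcases le_total (Y - μ * X) μ with hpm | hpm
    · exact Or.inr (Or.inr (hB hs hpm))
    · refine Or.inr (Or.inl (hC' hpm ?_))
      have : 0 ≤ (1 - μ) * (-(X + Y)) := mul_nonneg (by linarith) (by linarith)
      linarith

end Pool.Agent.H83.Sym
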